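import Pool.Agent.U625.KP.Split

/-!
# Powers of ordinary varieties of K3 type: the theorems
-/

set_option linter.unusedVariables false
set_option linter.unusedSectionVars false

open CategoryTheory AlgebraicGeometry CategoryTheory.Limits TensorProduct

universe u v

namespace Pool.Agent.U625.KP

open Pool.Agent.H914 Pool.Agent.H447 Pool.Agent.W534 Pool.Agent.Y163 VarClass Obj WeilCohomology
  Module Polynomial
open Pool.Agent.R940 hiding mem_of_baseChange
open Pool.Agent.N204.GT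
open Pool.Agent.U625.GP
open Pool.Agent.R908 (baseFrob)
open Pool.Agent.N204.GH (cv push_cv ext_cv cv_anti push_mem_cv map_iso_cv bij_of_perm)
open IntermediateField (adjoin)

variable {k : Type u} [Field k] {𝒱 : VarClass k} {ops : CycleOps 𝒱}
  {W : WeilCohomology.{u, v} ops} {X Y Y' Z U S : 𝒱.Obj} {p : ℕ}
  [hp : Fact p.Prime] {Φ : FrobSystem W p} {σ : W.K →+* ℂ}
  {h m : ℕ} {Q : ℚ[X]}

lemma k3_base {L : Type v} [Field L] [Algebra W.K L] {σ' : L →+* ℂ}
    (hσ : σ'.comp (algebraMap W.K L) = σ) (hK : IsOrdinaryOfK3Type Φ σ X h m Q) :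
    IsOrdinaryOfK3Type (baseFrob Φ L) σ' X h m Q where
  irreducible := hK.irreducible
  le := hK.le
  eigenvalues i β hβ := by
    rw [frobPoly_base hσ] at hβ
    exact hK.eigenvalues i β hβ
  slopes := hK.slopes

/-- Exterior products over the field of the coefficients. -/
def ExtPL (Φ : FrobSystem W p) (X : 𝒱.Obj) (n i c : ℕ) (x : W.H (pw X n)) : Prop :=
  ∃ (a b : ℕ) (e : Fin (a + 1) → Fin (n + 1)) (e' : Fin (b + 1) → Fin (n + 1))
    (i' i'' c' c'' : ℕ) (V' : Submodule W.K (W.H (pw X a)))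
    (V'' : Submodule W.K (W.H (pw X b))) (v : W.H (pw X a)) (w : W.H (pw X b)),
    (List.ofFn e ++ List.ofFn e').Perm (List.finRange (n + 1)) ∧ i' + i'' = i ∧ c' + c'' = c ∧
    Eff (AlgebraicClosure W.K) Φ i' c' V' ∧ Eff (AlgebraicClosure W.K) Φ i'' c'' V'' ∧ v ∈ V' ∧
    w ∈ V'' ∧ x = W.map (proj X e) v * W.map (proj X e') w

/-- The span of the products. -/
noncomputable def spX (Φ : FrobSystem W p) (X : 𝒱.Obj) (n i ν : ℕ) :
    Submodule W.K (W.H (pw X n)) :=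
  Submodule.span W.K {x | IsExtP Φ X n i ν x}

theorem splitPL (hW : WeilConjectures Φ σ X) (hK : IsOrdinaryOfK3Type Φ σ X h m Q) {n : ℕ}
    (hn : factors Q < n + 1) {i ν : ℕ} {V : Submodule W.K (W.H (pw X n))}
    (hV : Eff (AlgebraicClosure W.K) Φ i ν V) :
    V ≤ Submodule.span W.K {x | ExtPL Φ X n i ν x} := by
  classical
  obtain ⟨σ', hσ⟩ := exists_ext (L := AlgebraicClosure W.K) σ
  have hclosed : IsAlgClosed (baseW W (AlgebraicClosure W.K)).K :=
    inferInstanceAs (IsAlgClosed (AlgebraicClosure W.K))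
  set L := AlgebraicClosure W.K with hL
  intro x hx
  have h1 := up_Cn (L := L) hV hx
  obtain ⟨ι, hfin, B, lam, hB⟩ := exists_ebasis (baseFrob Φ L) X
  have hft : Fintype ι := Fintype.ofFinite ι
  have h2 : ∀ y : (baseW W L).H (pw X n), Cn (baseFrob Φ L) _ i ν y →
      (show L ⊗[W.K] W.H (pw X n) from y) ∈
        (Submodule.span W.K {x | ExtPL Φ X n i ν x}).baseChange L := by
    intro y hy
    have h3 := splitP hB (riemann_base hσ hW.1) (integral_base hσ hW.2) (k3_base hσ hK) hn hy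
    have h4 : (spX (baseFrob Φ L) X n i ν : Submodule L (L ⊗[W.K] W.H (pw X n))) ≤
        (Submodule.span W.K {x | ExtPL Φ X n i ν x}).baseChange L := by
      refine Submodule.span_le.2 ?_
      rintro _ ⟨a, b, e, e', i', i'', c', c'', v, w, g1, g2, g3, g4, g5, rfl⟩
      obtain ⟨V', hV', hv⟩ := down_Cn g4
      obtain ⟨V'', hV'', hw⟩ := down_Cn g5
      exact base_mul2 (W := W) (L := L) (proj X e) (proj X e')
        (G := Submodule.span W.K {x | ExtPL Φ X n i ν x}) (fun v' hv' w' hw' =>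
          Submodule.subset_span ⟨a, b, e, e', i', i'', c', c'', V', V'', v', w', g1, g2, g3, hV',
            hV'', hv', hw', rfl⟩) hv hw
    exact h4 h3
  have h5 : (spC (baseFrob Φ L) (pw X n) i ν : Submodule L (L ⊗[W.K] W.H (pw X n))) ≤
      (Submodule.span W.K {x | ExtPL Φ X n i ν x}).baseChange L :=
    Submodule.span_le.2 fun y hy => h2 y hy
  exact Pool.Agent.R940.mem_of_baseChange (h5 h1)

theorem noNew (hW : WeilConjectures Φ σ X) (hK : IsOrdinaryOfK3Type Φ σ X h m Q) {n : ℕ}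
    (hn : factors Q < n + 1) : NoNewEffectiveOnPower Φ X n := by
  intro i c V hV
  refine (splitPL hW hK hn hV).trans (Submodule.span_mono ?_)
  rintro x ⟨a, b, e, e', i', i'', c', c'', V', V'', v, w, h1, h2, h3, h4, h5, h6, h7, h8⟩
  exact ⟨a, b, e, e', proj X e, proj X e', bij_of_perm h1, isProjection_iff.2 rfl,
    isProjection_iff.2 rfl, i', i'', c', c'', v, w, h2, h3, ⟨V', h4, h6⟩, ⟨V'', h5, h7⟩, h8⟩

/-- **Reduction to a bounded number of factors.** -/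
theorem gtc_pw (hW : WeilConjectures Φ σ X) (hK : IsOrdinaryOfK3Type Φ σ X h m Q)
    (hb : HasBigDivisor ops X) (hN : GTC Φ (pw X (factors Q - 1))) (n : ℕ) :
    GTC Φ (pw X n) := by
  obtain ⟨σ', hσ⟩ := exists_ext (L := AlgebraicClosure W.K) σ
  have hclosed : IsAlgClosed (baseW W (AlgebraicClosure W.K)).K :=
    inferInstanceAs (IsAlgClosed (AlgebraicClosure W.K))
  have hpt' : HasPt (baseFrob Φ (AlgebraicClosure W.K)) X := HasPt.of_big hb
  exact gtc_iff.2 (GC_pw (riemann_base hσ hW.1) (integral_base hσ hW.2) (k3_base hσ hK) hpt'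
    (gtc_iff.1 hN) n)

/-! ### Eigenvalues on powers -/

/-- Frobenius eigenvalues on powers. -/
lemma fe_pw {n : ℕ} {γ : ℂ} (hγ : IsFrobeniusEigenvalue Φ σ (pw X n) γ) :
    ∃ (S S' : ℕ) (β : Fin (n + 1) → ℂ), 0 < S ∧ 0 < S' ∧ S * Φ.e (pw X n) = S' * Φ.e X ∧
      (∀ j, IsFrobeniusEigenvalue Φ σ X (β j)) ∧ γ ^ S = (∏ j, β j) ^ S' := by
  classical
  obtain ⟨σ', hσ⟩ := exists_ext (L := AlgebraicClosure W.K) σ
  have hclosed : IsAlgClosed (baseW W (AlgebraicClosure W.K)).K :=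
    inferInstanceAs (IsAlgClosed (AlgebraicClosure W.K))
  set L := AlgebraicClosure W.K with hL
  obtain ⟨γ', ⟨w, h1⟩, h2⟩ := Ev.of ((isFE_base hσ).2 hγ)
  obtain ⟨z, hz1, hz2⟩ :=
    ((Module.End.hasEigenvalue_iff_isRoot_charpoly _ _).2 h1).exists_hasEigenvector
  have hz3 : frobOn (baseFrob Φ L) (pw X n) 1 w z = γ' • z := Module.End.mem_eigenspace_iff.1 hz1
  have hE : (z : (baseW W L).H (pw X n)) ∈
      (frob (baseFrob Φ L) (pw X n) 1).maxGenEigenspace γ' := by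
    refine (Module.End.mem_maxGenEigenspace _ _ _).2 ⟨1, ?_⟩
    rw [pow_one, LinearMap.sub_apply, sub_eq_zero]
    exact congrArg Subtype.val hz3
  obtain ⟨ι, hfin, B, lam, hB⟩ := exists_ebasis (baseFrob Φ L) X
  have hft : Fintype ι := Fintype.ofFinite ι
  obtain ⟨S, S', hS, hS', hSS, hfr⟩ := frob_pr (baseFrob Φ L) X n
  obtain ⟨bs, hbs⟩ := exists_monBasis B n
  obtain ⟨I, hI⟩ : ∃ I, bs.repr (z : (baseW W L).H (pw X n)) I ≠ 0 := by
    by_contra hcon
    push Not at hcon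
    have h0 : (z : (baseW W L).H (pw X n)) = 0 := bs.ext_elem fun I => by
      rw [hcon, map_zero, Finsupp.zero_apply]
    exact hz2 (Subtype.ext h0)
  have hEq : (∏ j, lam (I j)) ^ (S' * 1) = γ' ^ S := by
    by_contra hne
    apply hI
    have h3 : (z : (baseW W L).H (pw X n)) ∈
        (frob (baseFrob Φ L) (pw X n) (S * 1)).maxGenEigenspace (γ' ^ S) := by
      have h4 := gen_mono _ _ S hE
      rwa [← frob_mul_eq, mul_comm 1 S] at h4
    refine repr_zero (Module.End.independent_maxGenEigenspace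
      (frob (baseFrob Φ L) (pw X n) (S * 1))) bs
      (fun I => (∏ j, lam (I j)) ^ (S' * 1)) (fun I => ?_) h3 hne
    rw [hbs]
    exact mon_gen (baseFrob Φ L) hB hfr I 1
  refine ⟨S, S', fun j => σ' (lam (I j)), hS, hS', hSS, fun j =>
    (isFE_base hσ).1 (Ev.toC ⟨_, root_charpoly hB (I j)⟩), ?_⟩
  have h4 : σ' ((∏ j, (show L from lam (I j))) ^ (S' * 1)) = σ' ((show L from γ') ^ S) :=
    congrArg σ' hEq
  rw [map_pow, map_pow, map_prod, mul_one] at h4
  rw [← h2]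
  exact h4.symm

/-- The conjugates of `β` have integral slopes. -/
def IntSl (p : ℕ) [Fact p.Prime] (e : ℕ) (β : ℂ) : Prop :=
  ∀ y : PadicAlgCl p, aeval y (minpoly ℚ β) = 0 → ∃ t : ℕ, ‖y‖ = ((p : ℝ) ^ (e * t))⁻¹

lemma intSl_k3 (hK : IsOrdinaryOfK3Type Φ σ X h m Q) {β : ℂ}
    (hβ : IsFrobeniusEigenvalue Φ σ X β) (hint : IsIntegral ℤ β) : IntSl p (Φ.e X) β := by
  intro y hy
  have hpos : (0 : ℝ) < p := zero_lt_one.trans (p_gt (p := p))
  obtain ⟨i, hi⟩ := hβ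
  have hdvd : ∀ P : ℚ[X], aeval β P = 0 → aeval y P = 0 := by
    intro P hP
    obtain ⟨R, hR⟩ := minpoly.dvd ℚ β hP
    rw [hR, map_mul, hy, zero_mul]
  rcases hK.eigenvalues i β hi with ⟨⟨t, ht⟩, N, hN, h1⟩ | ⟨-, h1⟩
  · refine ⟨t, ?_⟩
    have h2 : aeval y (Polynomial.X ^ (2 * N) - C ((((p ^ Φ.e X : ℕ) : ℚ)) ^ (i * N)) : ℚ[X]) = 0 := by
      apply hdvd
      rw [map_sub, map_pow, aeval_X, aeval_C, h1, map_pow, map_natCast, sub_self]
    rw [map_sub, map_pow, aeval_X, aeval_C, map_pow, map_natCast, sub_eq_zero] at h2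
    have h3 := congrArg norm h2
    rw [norm_pow, norm_pow, Nat.cast_pow, norm_pow, norm_p] at h3
    have h4 : ‖y‖ ^ (2 * N) = (((p : ℝ) ^ (Φ.e X * t))⁻¹) ^ (2 * N) := by
      rw [h3, ht, ← inv_pow, ← pow_mul, ← pow_mul]
      congr 1
      ring
    exact (pow_left_inj₀ (norm_nonneg _) (by positivity) (by omega)).1 h4
  · obtain ⟨y₀, hy₀, hn₀, hall⟩ := hK.slopes
    rcases hall y (hdvd Q h1) with h2 | h2 | h2
    · exact ⟨h - m, by rw [h2, hn₀]⟩
    · refine ⟨h + m, ?_⟩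
      have h3 := congrArg norm h2
      rw [norm_mul, norm_pp, hn₀] at h3
      have h4 : ((p : ℝ) ^ (Φ.e X * (2 * h)))⁻¹ =
          ((p : ℝ) ^ (Φ.e X * (h + m)))⁻¹ * ((p : ℝ) ^ (Φ.e X * (h - m)))⁻¹ := by
        rw [← mul_inv, ← pow_add, ← Nat.mul_add]
        congr 3
        have := hK.le
        omega
      rw [h4] at h3
      exact mul_right_cancel₀ (inv_ne_zero (pow_ne_zero _ hpos.ne')) h3
    · exact ⟨h, h2⟩

lemma fe_int (hW : WeilConjectures Φ σ Y) {β : ℂ} (hβ : IsFrobeniusEigenvalue Φ σ Y β) :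
    IsIntegral ℤ β := by
  obtain ⟨i, hi⟩ := hβ
  obtain ⟨P, hP⟩ := hW.2 i
  have hmon : P.Monic := by
    refine Polynomial.monic_of_injective (f := Int.castRingHom ℂ) Int.cast_injective ?_
    rw [← hP, frobPoly_eq]
    exact (LinearMap.charpoly_monic _).map σ
  refine ⟨P, hmon, ?_⟩
  rw [hP, Polynomial.IsRoot.def, Polynomial.eval_map] at hi
  exact hi

/-- The slopes on powers are integers. -/
lemma intSl_pw (hW : ∀ Y, WeilConjectures Φ σ Y) (hK : IsOrdinaryOfK3Type Φ σ X h m Q) {n : ℕ}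
    {γ : ℂ} (hγ : IsFrobeniusEigenvalue Φ σ (pw X n) γ) : IntSl p (Φ.e (pw X n)) γ := by
  classical
  obtain ⟨S, S', β, hS, hS', hSS, hβ, h1⟩ := fe_pw hγ
  have hγi := fe_int (hW _) hγ
  have hβi := fun j => fe_int (hW _) (hβ j)
  intro y hy
  let lam : Option (Fin (n + 1)) → ℂ := fun o => o.elim γ β
  have halg : Algebra.IsAlgebraic ℚ (EF lam) := by
    apply IntermediateField.isAlgebraic_adjoin
    rintro _ ⟨o, rfl⟩
    rcases o with _ | j
    · exact hγi.tower_top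
    · exact (hβi j).tower_top
  have h2 := Algebra.IsAlgebraic.range_eval_eq_rootSet_minpoly (PadicAlgCl p) (el lam none)
    (F := ℚ)
  have h3 : y ∈ (minpoly ℚ (el lam none)).rootSet (PadicAlgCl p) := by
    rw [mem_rootSet]
    refine ⟨minpoly.ne_zero (Algebra.IsAlgebraic.isAlgebraic _).isIntegral, ?_⟩
    rw [← minpoly_coe]
    exact hy
  rw [← h2] at h3
  obtain ⟨ψ, hψ⟩ := h3
  have hψ' : ψ (el lam none) = y := hψ
  choose t ht using fun j => intSl_k3 hK (hβ j) (hβi j) (ψ (el lam (some j)))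
    (aeval_emb ψ (el lam (some j)))
  refine ⟨∑ j, t j, ?_⟩
  have h4 : (el lam none) ^ S = (∏ j, el lam (some j)) ^ S' := by
    apply (algebraMap (EF lam) ℂ).injective
    rw [map_pow, map_pow, map_prod]
    exact h1
  have h5 := congrArg (fun z => ‖ψ z‖) h4
  simp only [map_pow, map_prod, norm_pow, norm_prod, hψ', ht] at h5
  have h6 : ‖y‖ ^ S = (((p : ℝ) ^ (Φ.e (pw X n) * ∑ j, t j))⁻¹) ^ S := by
    rw [h5, Finset.prod_inv_distrib, Finset.prod_pow_eq_pow_sum, ← Finset.mul_sum, inv_pow,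
      inv_pow, ← pow_mul, ← pow_mul]
    congr 2
    calc Φ.e X * (∑ j, t j) * S' = (S' * Φ.e X) * ∑ j, t j := by ring
      _ = (S * Φ.e (pw X n)) * ∑ j, t j := by rw [hSS]
      _ = _ := by ring
  exact (pow_left_inj₀ (norm_nonneg _) (by positivity) hS.ne').1 h6

lemma minSlopes_pw (hW : ∀ Y, WeilConjectures Φ σ Y) (hK : IsOrdinaryOfK3Type Φ σ X h m Q)
    (n : ℕ) : HasIntegralMinimalSlopes Φ σ (pw X n) := by
  intro γ hγ
  refine exists_min (fe_int (hW _) hγ) (Φ.e_pos _) fun y hy => ?_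
  obtain ⟨t, ht⟩ := intSl_pw hW hK hγ y hy
  refine ⟨t, ?_⟩
  rw [ht, zpow_neg, zpow_natCast, ← pow_mul]

/-- A power of each eigenvalue lies in the splitting field. -/
lemma mem_split (hK : IsOrdinaryOfK3Type Φ σ X h m Q) {n : ℕ} {γ : ℂ}
    (hγ : IsFrobeniusEigenvalue Φ σ (pw X n) γ) :
    ∃ M : ℕ, 0 < M ∧ γ ^ M ∈ adjoin ℚ {x : ℂ | aeval x Q = 0} := by
  classical
  obtain ⟨S, S', β, hS, hS', hSS, hβ, h1⟩ := fe_pw hγ
  have h2 : ∀ j, ∃ M : ℕ, 0 < M ∧ β j ^ M ∈ adjoin ℚ {x : ℂ | aeval x Q = 0} := by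
    intro j
    obtain ⟨i, hi⟩ := hβ j
    rcases hK.eigenvalues i _ hi with ⟨-, N, hN, h3⟩ | ⟨-, h3⟩
    · refine ⟨2 * N, by omega, ?_⟩
      rw [h3]
      exact pow_mem (natCast_mem _ _) _
    · refine ⟨1, one_pos, ?_⟩
      rw [pow_one]
      exact IntermediateField.subset_adjoin ℚ _ h3
  choose M hM hmem using h2
  refine ⟨S * ∏ j, M j, Nat.mul_pos hS (Finset.prod_pos fun j _ => hM j), ?_⟩
  rw [pow_mul, h1, ← pow_mul, ← Finset.prod_pow]
  refine prod_mem fun j _ => ?_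
  obtain ⟨r, hr⟩ := Finset.dvd_prod_of_mem M (Finset.mem_univ j)
  rw [hr, show S' * (M j * r) = M j * (S' * r) by ring, pow_mul]
  exact pow_mem (hmem j) _

lemma disjoint_pw {r : ℕ} {X : Fin r → 𝒱.Obj} {h m : Fin r → ℕ} {Q : Fin r → ℚ[X]}
    (hK : ∀ i, IsOrdinaryOfK3Type Φ σ (X i) (h i) (m i) (Q i))
    (hd : DisjointSplittingFields Φ σ Z Q) (n : Fin r → ℕ) :
    HaveDisjointFields Φ σ Z fun i => pw (X i) (n i) := by
  classical
  intro α β hα hβ
  obtain ⟨N, hN, h1⟩ := hd α hα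
  choose M hM hmem using fun i => mem_split (hK i) (hβ i)
  have hP : 0 < ∏ i, M i := Finset.prod_pos fun i _ => hM i
  have hβN : ∀ i, β i ^ (N * ∏ j, M j) ∈ adjoin ℚ {x : ℂ | aeval x (Q i) = 0} := by
    intro i
    obtain ⟨s, hs⟩ := Finset.dvd_prod_of_mem M (Finset.mem_univ i)
    rw [hs, show N * (M i * s) = M i * (N * s) by ring, pow_mul]
    exact pow_mem (hmem i) _
  refine ⟨N * ∏ i, M i, Nat.mul_pos hN hP, fun i => ?_⟩
  refine (h1 i).of_le (IntermediateField.adjoin_le_iff.2 ?_)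
    (IntermediateField.adjoin_simple_le_iff.2 (hβN i))
  rintro x (hx | ⟨j, hj, rfl⟩)
  · rw [Set.mem_singleton_iff] at hx
    rw [hx, pow_mul]
    have h2 : α ^ N ∈ adjoin ℚ ({α ^ N} ∪ {x | ∃ j < i, aeval x (Q j) = 0}) :=
      IntermediateField.subset_adjoin ℚ _ (Or.inl rfl)
    exact pow_mem h2 _
  · have h2 : adjoin ℚ {x : ℂ | aeval x (Q j) = 0} ≤
        adjoin ℚ ({α ^ N} ∪ {x | ∃ j < i, aeval x (Q j) = 0}) :=
      IntermediateField.adjoin.mono _ _ _ fun x hx => Or.inr ⟨j, hj, hx⟩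
    exact h2 (hβN j)

end Pool.Agent.U625.KP
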