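import Pool.Agent.U625.KP.Slopes

/-!
# Splitting of effective classes on powers of ordinary varieties of K3 type
-/

set_option linter.unusedVariables false
set_option linter.unusedSectionVars false

open CategoryTheory AlgebraicGeometry CategoryTheory.Limits TensorProduct

universe u v

namespace Pool.Agent.U625.KP

open Pool.Agent.H914 Pool.Agent.H447 Pool.Agent.W534 Pool.Agent.Y163 VarClass Obj WeilCohomology
  Module Polynomial
open Pool.Agent.R940 hiding mem_of_baseChange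
open Pool.Agent.N204.GT
open Pool.Agent.U625.GP
open Pool.Agent.N204.GH (cv push_cv ext_cv cv_anti push_mem_cv map_iso_cv bij_of_perm)

variable {k : Type u} [Field k] {𝒱 : VarClass k} {ops : CycleOps 𝒱}
  {W : WeilCohomology.{u, v} ops} {X Y Y' Z U S : 𝒱.Obj} {p : ℕ}
  [hp : Fact p.Prime] {Φ : FrobSystem W p} {σ : W.K →+* ℂ}
  {h m : ℕ} {Q : ℚ[X]}

/-- Exterior products. -/
def IsExtP (Φ : FrobSystem W p) (X : 𝒱.Obj) (n i c : ℕ) (x : W.H (pw X n)) : Prop :=
  ∃ (a b : ℕ) (e : Fin (a + 1) → Fin (n + 1)) (e' : Fin (b + 1) → Fin (n + 1))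
    (i' i'' c' c'' : ℕ) (v : W.H (pw X a)) (w : W.H (pw X b)),
    (List.ofFn e ++ List.ofFn e').Perm (List.finRange (n + 1)) ∧ i' + i'' = i ∧ c' + c'' = c ∧
    Cn Φ _ i' c' v ∧ Cn Φ _ i'' c'' w ∧
    x = W.map (proj X e) v * W.map (proj X e') w

section

variable {ι : Type v} [Fintype ι] [DecidableEq ι] {B : HBasis W X ι} {lam : ι → W.K}

/-- Divisibility of the products of eigenvalues. -/
lemma div_prod (hF : ∀ l, IsIntegral ℤ (lam l)) [Algebra.IsAlgebraic ℚ (EF lam)] {e : ℕ} (he : 0 < e)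
    {f : (EF lam →ₐ[ℚ] PadicAlgCl p) → ι → ℕ}
    (hf : ∀ ψ l, ‖ψ (el lam l)‖ = ((p : ℝ) ^ (e * f ψ l))⁻¹) {n : ℕ} (J : Fin n → ι) (ν : ℕ) :
    IsIntegral ℤ ((∏ j, lam (J j)) / (p : W.K) ^ (e * ν)) ↔ ∀ ψ, ν ≤ ∑ j, f ψ (J j) := by
  have hpos : (0 : ℝ) < p := zero_lt_one.trans (p_gt (p := p))
  have hdown : ∀ z : EF lam, IsIntegral ℤ (algebraMap (EF lam) W.K z) ↔ IsIntegral ℤ z := fun z =>
    isIntegral_algebraMap_iff (algebraMap (EF lam) W.K).injective
  have hz : IsIntegral ℤ (∏ j, el lam (J j)) :=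
    IsIntegral.prod _ fun j _ => (hdown _).1 (hF (J j))
  have e1 : (∏ j, lam (J j)) / (p : W.K) ^ (e * ν) =
      algebraMap (EF lam) W.K ((∏ j, el lam (J j)) / (p : EF lam) ^ (e * ν)) := by
    rw [map_div₀, map_pow, map_natCast, map_prod]
    rfl
  rw [e1, hdown, div_iff hz]
  refine forall_congr' fun ψ => ?_
  rw [map_prod, norm_prod, Finset.prod_congr rfl fun j _ => hf ψ (J j), Finset.prod_inv_distrib,
    Finset.prod_pow_eq_pow_sum, ← Finset.mul_sum,
    inv_le_inv₀ (pow_pos hpos _) (pow_pos hpos _), pow_le_pow_iff_right₀ (p_gt (p := p))]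
  exact Nat.mul_le_mul_left_iff he

/-- The numbers of eigenvalues. -/
lemma card_classes [DecidableEq (EF lam)] (hx0 : ∀ l, lam l ≠ 0) {N : ℕ} {n : ℕ} (I : Fin n → ι) (hQ : Q ≠ 0)
    (h1 : ∀ j, aeval (lam (I j)) Q = 0 ∧ aeval ((p : W.K) ^ N / lam (I j)) Q = 0)
    (h2 : ∀ j j', ¬ (lam (I j) * lam (I j') = (p : W.K) ^ N)) :
    (Finset.univ.image fun j => el lam (I j)).card ≤ Q.natDegree / 2 := by
  classical
  have hpK : (p : W.K) ≠ 0 := Nat.cast_ne_zero.2 hp.out.ne_zero
  set S : Finset W.K := Finset.univ.image fun j => lam (I j) with hS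
  have hcard : (Finset.univ.image fun j => el lam (I j)).card = S.card := by
    have e1 : S = (Finset.univ.image fun j => el lam (I j)).image (Subtype.val) := by
      rw [hS, Finset.image_image]
      rfl
    rw [e1, Finset.card_image_of_injective _ Subtype.val_injective]
  rw [hcard]
  set S' : Finset W.K := S.image fun z => (p : W.K) ^ N / z with hS'
  have hS0 : ∀ z ∈ S, z ≠ 0 := by
    intro z hz
    obtain ⟨j, _, rfl⟩ := Finset.mem_image.1 hz
    exact hx0 _
  have hc' : S'.card = S.card := by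
    rw [hS', Finset.card_image_of_injOn]
    intro a ha b hb hab
    have h3 : (p : W.K) ^ N / a = (p : W.K) ^ N / b := hab
    rw [div_eq_div_iff (hS0 a ha) (hS0 b hb)] at h3
    exact (mul_left_cancel₀ (pow_ne_zero _ hpK) h3).symm
  have hdis : Disjoint S S' := by
    rw [Finset.disjoint_left]
    intro z hz hz'
    obtain ⟨j, _, hj⟩ := Finset.mem_image.1 hz
    obtain ⟨w, hw, hw'⟩ := Finset.mem_image.1 hz'
    obtain ⟨j', _, hj'⟩ := Finset.mem_image.1 hw
    apply h2 j j'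
    rw [hj, hj', ← hw', div_mul_cancel₀ _ (hS0 w hw)]
  have hsub : S ∪ S' ⊆ (Q.aroots W.K).toFinset := by
    intro z hz
    rw [Multiset.mem_toFinset, mem_aroots]
    refine ⟨hQ, ?_⟩
    rcases Finset.mem_union.1 hz with h3 | h3
    · obtain ⟨j, _, rfl⟩ := Finset.mem_image.1 h3
      exact (h1 j).1
    · obtain ⟨w, hw, rfl⟩ := Finset.mem_image.1 h3
      obtain ⟨j, _, rfl⟩ := Finset.mem_image.1 hw
      exact (h1 j).2
  have h3 := Finset.card_le_card hsub
  rw [Finset.card_union_of_disjoint hdis, hc'] at h3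
  have h4 := Multiset.toFinset_card_le (Q.aroots W.K)
  have h5 : Multiset.card (Q.aroots W.K) ≤ Q.natDegree := by
    have h6 := Polynomial.card_roots' (Q.map (algebraMap ℚ W.K))
    rw [Polynomial.natDegree_map] at h6
    exact h6
  omega

/-- **Splitting.** -/
theorem splitP [IsAlgClosed W.K] (hB : IsEig Φ B lam) (hRH : RiemannHyp Φ σ X)
    (hint : HasIntegralPolys Φ σ X) (hK : IsOrdinaryOfK3Type Φ σ X h m Q) {n : ℕ}
    (hn : factors Q < n + 1) {i ν : ℕ} {c : W.H (pw X n)} (hc : Cn Φ (pw X n) i ν c) :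
    c ∈ Submodule.span W.K {x | IsExtP Φ X n i ν x} := by
  have hdec : DecidableEq (EF lam) := Classical.decEq _
  obtain ⟨s, α₀, hs, hα₀, hE, hgr⟩ := hc
  obtain ⟨f, T, y₀, hf, g1, g2, g3, g4, g5, g6, -⟩ := exists_slopes hB hRH hint hK
  have hF := weilFamily hB hRH hint (slopeDenominator hRH hint)
  have halg := isAlg_EF hF
  have hx0 : ∀ l, lam l ≠ 0 := fun l => gen_ne_zero (hB l) (B.b.ne_zero l)
  have he := Φ.e_pos X
  have hne : Nonempty (EF lam →ₐ[ℚ] PadicAlgCl p) := ⟨IsAlgClosed.lift⟩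
  obtain ⟨S, S', hS, hS', hSS, hfr⟩ := frob_pr Φ X n
  obtain ⟨bs, hbs⟩ := exists_monBasis B n
  rw [← bs.sum_repr c]
  refine Submodule.sum_mem _ fun I _ => ?_
  by_cases h0 : bs.repr c I = 0
  · rw [h0, zero_smul]; exact Submodule.zero_mem _
  refine Submodule.smul_mem _ _ ?_
  rw [hbs]
  have hJ : ∑ j, B.deg (I j) = i := by
    by_contra hne
    apply h0
    refine repr_zero (W.isInternal (pw X n)).submodule_iSupIndep bs
      (fun I => ∑ j, B.deg (I j)) (fun I => ?_) hgr hne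
    rw [hbs]
    exact mon_gr B n I
  have hEq : (∏ j, lam (I j)) ^ (S' * s) = α₀ ^ S := by
    by_contra hne
    apply h0
    have h3 : c ∈ (frob Φ (pw X n) (S * s)).maxGenEigenspace (α₀ ^ S) := by
      have h4 := gen_mono _ _ S hE
      rwa [← frob_mul_eq, mul_comm s S] at h4
    refine repr_zero (Module.End.independent_maxGenEigenspace (frob Φ (pw X n) (S * s))) bs
      (fun I => (∏ j, lam (I j)) ^ (S' * s)) (fun I => ?_) h3 hne
    rw [hbs]
    exact mon_gen Φ hB hfr I s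
  have hdiv : IsIntegral ℤ ((∏ j, lam (I j)) / (p : W.K) ^ (Φ.e X * ν)) := by
    refine IsIntegral.of_pow (Nat.mul_pos hS' hs) ?_
    have e1 : ((∏ j, lam (I j)) / (p : W.K) ^ (Φ.e X * ν)) ^ (S' * s) =
        (α₀ / (p : W.K) ^ (Φ.e (pw X n) * s * ν)) ^ S := by
      rw [div_pow, div_pow, hEq, ← pow_mul, ← pow_mul]
      congr 2
      calc Φ.e X * ν * (S' * s) = (S' * Φ.e X) * (ν * s) := by ring
        _ = (S * Φ.e (pw X n)) * (ν * s) := by rw [hSS]
        _ = _ := by ring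
    rw [e1]
    exact hα₀.pow S
  rw [div_prod hF.int he hf] at hdiv
  obtain ⟨J, hJ1, hJ2, c', c'', hcc, hc1, hc2⟩ := comb f T (el lam) (fun ψ z => ψ z = y₀)
    (fun l l' => lam l * lam l' = (p : W.K) ^ (Φ.e X * (2 * h))) h m g1 g2 g3 g4
    (fun ψ l l' _ _ h1 h2 => ψ.toRingHom.injective (h1.trans h2.symm))
    g5 (n := n + 1) (by
      have : 2 ≤ factors Q := le_max_left _ _
      omega) I (fun h1 h2 => by
      have h3 := card_classes hx0 I hK.irreducible.ne_zero (fun j => g6 _ (h1 j)) h2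
      have h4 : Q.natDegree / 2 ≤ factors Q := le_max_right _ _
      omega) ν hdiv
  obtain ⟨a, b, e, e', hperm, q1, q2⟩ := exists_subword (id : Fin (n + 1) → Fin (n + 1))
    (fun j => if j ∈ J then 1 else 0) (by
      intro j
      have h1 : cnt (id : Fin (n + 1) → Fin (n + 1)) j = 1 := by
        rw [cnt, Finset.card_eq_one]
        exact ⟨j, by ext i; simp⟩
      rw [h1]
      split_ifs <;> omega)
  have hcnt : ∀ j, cnt (id : Fin (n + 1) → Fin (n + 1)) j = 1 := by
    intro j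
    rw [cnt, Finset.card_eq_one]
    exact ⟨j, by ext i; simp⟩
  have hsum1 : ∀ F : Fin (n + 1) → ℕ, ∑ t, F (e t) = ∑ j ∈ J, F j := by
    intro F
    have h1 := sum_cnt_nat (id ∘ e) F
    rw [q1] at h1
    change ∑ t, F (e t) = _ at h1
    rw [h1]
    simp only [mul_ite, mul_one, mul_zero]
    rw [Finset.sum_ite_mem, Finset.univ_inter]
  have hsum2 : ∀ F : Fin (n + 1) → ℕ, ∑ t, F (e' t) = ∑ j ∈ Jᶜ, F j := by
    intro F
    have h1 := sum_cnt_nat (id ∘ e') F
    rw [q2] at h1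
    change ∑ t, F (e' t) = _ at h1
    rw [h1, ← Finset.sum_filter_add_sum_filter_not Finset.univ (fun j => j ∈ Jᶜ)]
    have h2 : ∑ j ∈ Finset.univ.filter (fun j => ¬ j ∈ Jᶜ),
        F j * ((cnt (id : Fin (n + 1) → Fin (n + 1)) - fun j => if j ∈ J then 1 else 0 :
          Fin (n + 1) → ℕ) j) = 0 := by
      refine Finset.sum_eq_zero fun j hj => ?_
      have h3 : j ∈ J := by
        by_contra hcon
        exact (Finset.mem_filter.1 hj).2 (Finset.mem_compl.2 hcon)
      rw [Pi.sub_apply, hcnt, if_pos h3, Nat.sub_self, mul_zero]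
    rw [h2, add_zero]
    have h4 : Finset.univ.filter (fun j => j ∈ Jᶜ) = Jᶜ := by ext j; simp
    rw [h4]
    refine Finset.sum_congr rfl fun j hj => ?_
    rw [Pi.sub_apply, hcnt, if_neg (Finset.mem_compl.1 hj), Nat.sub_zero, mul_one]
  have ha : a = J.card := by
    have := hsum1 fun _ => 1
    simpa using this
  have hb : b = Jᶜ.card := by
    have := hsum2 fun _ => 1
    simpa using this
  have ha0 : 0 < a := by rw [ha]; exact hJ1.card_pos
  have hb0 : 0 < b := by rw [hb]; exact hJ2.card_pos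
  obtain ⟨a, rfl⟩ : ∃ r, a = r + 1 := ⟨a - 1, by omega⟩
  obtain ⟨b, rfl⟩ : ∃ r, b = r + 1 := ⟨b - 1, by omega⟩
  obtain ⟨ε, hε⟩ := mon_split B I e e' hperm
  have hCN : ∀ {r : ℕ} (I' : Fin r → ι) (u : ℕ), (∀ ψ, u ≤ ∑ j, f ψ (I' j)) →
      CN p (Φ.e X) 1 lam 1 1 (cnt I') u := by
    intro r I' u hu
    have h1 := (div_prod hF.int he hf I' u).2 hu
    rw [CN, one_pow, one_mul, ← prod_cnt, mul_one, mul_one, mul_one, pow_one]
    exact h1
  have hv := mon_Cn hB (b := a) one_pos (hCN (I ∘ e) c' fun ψ => by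
    rw [show ∑ j, f ψ ((I ∘ e) j) = ∑ j ∈ J, f ψ (I j) from hsum1 fun j => f ψ (I j)]
    exact hc1 ψ)
  have hw := mon_Cn hB (b := b) one_pos (hCN (I ∘ e') c'' fun ψ => by
    rw [show ∑ j, f ψ ((I ∘ e') j) = ∑ j ∈ Jᶜ, f ψ (I j) from hsum2 fun j => f ψ (I j)]
    exact hc2 ψ)
  rw [← sum_cnt_nat] at hv hw
  have hdeg : ∑ j, B.deg ((I ∘ e) j) + ∑ j, B.deg ((I ∘ e') j) = i := by
    rw [show ∑ j, B.deg ((I ∘ e) j) = ∑ j ∈ J, B.deg (I j) from hsum1 fun j => B.deg (I j),
      show ∑ j, B.deg ((I ∘ e') j) = ∑ j ∈ Jᶜ, B.deg (I j) from hsum2 fun j => B.deg (I j),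
      Finset.sum_add_sum_compl, hJ]
  rw [hε, ← proj_eq, ← proj_eq]
  exact Submodule.smul_mem _ _ (Submodule.subset_span ⟨a, b, e, e', _, _, c', c'', _, _, hperm,
    hdeg, hcc, hv, hw, rfl⟩)

end

/-- Exterior products and the coniveau filtration. -/
lemma ext_mem_pw {n a b : ℕ} {e : Fin (a + 1) → Fin (n + 1)}
    {e' : Fin (b + 1) → Fin (n + 1)} (h : Function.Bijective (Sum.elim e e')) {j j' : ℕ}
    {v : W.H (pw X a)} {w : W.H (pw X b)} (hv : v ∈ cv W j _) (hw : w ∈ cv W j' _) :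
    W.map (proj X e) v * W.map (proj X e') w ∈ cv W (j + j') (pw X n) := by
  have h1 := ext_cv hv hw
  let g := Equiv.ofBijective _ h
  let θ : pw X n ⟶ (pw X a).prod (pw X b) := Obj.lift (proj X e) (proj X e')
  let θ' : (pw X a).prod (pw X b) ⟶ pw X n := tup n (fun i =>
      Sum.elim (fun s => fst (pw X a) (pw X b) ≫ pr X a s)
        (fun s => snd (pw X a) (pw X b) ≫ pr X b s) (g.symm i))
  have hθ : θ ≫ θ' = 𝟙 _ := by
    apply pw_hom_ext
    intro i
    rw [Category.id_comp, Category.assoc, tup_pr]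
    obtain ⟨s, hs⟩ := g.surjective i
    have h2 : g.symm i = s := by rw [← hs, g.symm_apply_apply]
    rw [h2]
    have h3 : Sum.elim e e' s = i := hs
    rcases s with s | s
    · rw [Sum.elim_inl, ← Category.assoc θ, Obj.lift_fst, proj_eq, tup_pr]
      rw [Sum.elim_inl] at h3
      rw [h3]
    · rw [Sum.elim_inr, ← Category.assoc θ, Obj.lift_snd, proj_eq, tup_pr]
      rw [Sum.elim_inr] at h3
      rw [h3]
  have hlen : a + 1 + (b + 1) = n + 1 := by
    have := Fintype.card_congr g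
    rwa [Fintype.card_sum, Fintype.card_fin, Fintype.card_fin, Fintype.card_fin] at this
  have hd : (pw X n).dim = ((pw X a).prod (pw X b)).dim := by
    simp only [dim_prod]
    have e1 : (pw X n).dim = (n + 1) * X.dim := dim_pw X n
    have e2 : (pw X a).dim = (a + 1) * X.dim := dim_pw X a
    have e3 : (pw X b).dim = (b + 1) * X.dim := dim_pw X b
    rw [e1, e2, e3, ← hlen]
    ring
  have h2 := map_iso_cv θ θ' hθ hd h1
  rw [map_mul, ← W.map_comp, ← W.map_comp, Obj.lift_fst, Obj.lift_snd] at h2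
  exact h2

/-- **Reduction to a bounded number of factors.** -/
theorem GC_pw [IsAlgClosed W.K] (hRH : RiemannHyp Φ σ X) (hint : HasIntegralPolys Φ σ X)
    (hK : IsOrdinaryOfK3Type Φ σ X h m Q) (hpt : HasPt Φ X)
    (hN : GC Φ (pw X (factors Q - 1))) (n : ℕ) : GC Φ (pw X n) := by
  classical
  obtain ⟨ι, hfin, B, lam, hB⟩ := exists_ebasis Φ X
  have hft : Fintype ι := Fintype.ofFinite ι
  have hdown : ∀ M n, n ≤ M → GC Φ (pw X M) → GC Φ (pw X n) := by
    intro M n hle
    induction M, hle using Nat.le_induction with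
    | base => exact fun h => h
    | succ M _ ih =>
      intro h
      exact ih (GC.of_dom (Y' := X.prod (pw X M)) (dom_snd'' hpt) h)
  induction n using Nat.strong_induction_on with
  | _ n ih =>
  rcases Nat.lt_or_ge (factors Q) (n + 1) with hlt | hge
  · intro i j c hc
    refine (Submodule.span_le.2 ?_) (splitP hB hRH hint hK hlt hc)
    rintro _ ⟨a, b, e, e', i', i'', c', c'', v, w, g1, g2, g3, g4, g5, rfl⟩
    have hab : a + 1 + (b + 1) = n + 1 := by
      have := g1.length_eq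
      rwa [List.length_append, List.length_ofFn, List.length_ofFn, List.length_finRange] at this
    have hv : v ∈ cv W c' _ := ih a (by omega) i' c' v g4
    have hw : w ∈ cv W c'' _ := ih b (by omega) i'' c'' w g5
    rw [← g3]
    exact ext_mem_pw (bij_of_perm g1) hv hw
  · exact hdown _ n (by omega) hN

end Pool.Agent.U625.KP
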