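import Mathlib

/-!
# Splitting of monomials of K3 type: combinatorics
-/

set_option autoImplicit false

open Finset

namespace Pool.Agent.U625.KP

/-- Adjusting the two parts. -/
lemma adjust {Ψ : Type*} {F G : Ψ → ℕ} {ν c' c'' : ℕ} (h : ν ≤ c' + c'')
    (h1 : ∀ ψ, c' ≤ F ψ) (h2 : ∀ ψ, c'' ≤ G ψ) :
    ∃ a b, a + b = ν ∧ (∀ ψ, a ≤ F ψ) ∧ (∀ ψ, b ≤ G ψ) := by
  refine ⟨min c' ν, ν - min c' ν, by omega, fun ψ => ?_, fun ψ => ?_⟩
  · have := h1 ψ; omega
  · have := h2 ψ; omega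

/-- A part of constant weight can be split off. -/
lemma split_const {ι Ψ : Type*} {f : Ψ → ι → ℕ} {n : ℕ} {I : Fin n → ι} {ν K : ℕ}
    (hν : ∀ ψ, ν ≤ ∑ j, f ψ (I j)) (J : Finset (Fin n)) (hJ : ∀ ψ, ∑ j ∈ J, f ψ (I j) = K) :
    ∃ c' c'', c' + c'' = ν ∧ (∀ ψ, c' ≤ ∑ j ∈ J, f ψ (I j)) ∧
      (∀ ψ, c'' ≤ ∑ j ∈ Jᶜ, f ψ (I j)) := by
  refine adjust (c' := K) (c'' := ν - K) (by omega) (fun ψ => (hJ ψ).ge) fun ψ => ?_
  have h1 := hν ψ
  have h2 := Finset.sum_add_sum_compl J fun j => f ψ (I j)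
  rw [hJ ψ] at h2
  omega

/-- **Splitting.** -/
theorem comb {ι Ψ Ω : Type*} [DecidableEq Ω] (f : Ψ → ι → ℕ) (T : ι → Prop) (x : ι → Ω)
    (hit : Ψ → Ω → Prop) (conj : ι → ι → Prop) (h m : ℕ)
    (hconst : ∀ l, ¬ T l → ∃ t, ∀ ψ, f ψ l = t)
    (hconj : ∀ l l', T l → T l' → conj l l' → ∀ ψ, f ψ l + f ψ l' = 2 * h)
    (hlow : ∀ ψ l, T l → h ≤ f ψ l + m)
    (hlow' : ∀ ψ l, T l → ¬ hit ψ (x l) → h ≤ f ψ l)
    (huniq : ∀ ψ l l', T l → T l' → hit ψ (x l) → hit ψ (x l') → x l = x l')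
    (hex : ∀ l, T l → ∃ ψ, (∀ l', T l' → x l' = x l → f ψ l' + m = h) ∧
      (∀ l', T l' → ¬ conj l l' → f ψ l' ≤ h))
    {n : ℕ} (hn2 : 2 < n) (I : Fin n → ι)
    (hcard : (∀ j, T (I j)) → (∀ j j', ¬ conj (I j) (I j')) →
      (Finset.univ.image fun j => x (I j)).card < n)
    (ν : ℕ) (hν : ∀ ψ, ν ≤ ∑ j, f ψ (I j)) :
    ∃ J : Finset (Fin n), J.Nonempty ∧ Jᶜ.Nonempty ∧ ∃ c' c'', c' + c'' = ν ∧
      (∀ ψ, c' ≤ ∑ j ∈ J, f ψ (I j)) ∧ (∀ ψ, c'' ≤ ∑ j ∈ Jᶜ, f ψ (I j)) := by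
  classical
  -- a letter of constant weight
  by_cases h1 : ∃ j t, ∀ ψ, f ψ (I j) = t
  · obtain ⟨j, t, ht⟩ := h1
    refine ⟨{j}, Finset.singleton_nonempty j, ?_, split_const hν {j} (K := t) fun ψ => ?_⟩
    · rw [← Finset.card_pos, Finset.card_compl, Finset.card_singleton, Fintype.card_fin]
      omega
    · rw [Finset.sum_singleton, ht]
  push Not at h1
  have hT : ∀ j, T (I j) := by
    intro j
    by_contra hcon
    obtain ⟨t, ht⟩ := hconst _ hcon
    obtain ⟨ψ, hψ⟩ := h1 j t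
    exact hψ (ht ψ)
  -- a pair of conjugate letters
  by_cases h2 : ∃ j j', conj (I j) (I j')
  · obtain ⟨j, j', hc⟩ := h2
    have hne : j ≠ j' := by
      rintro rfl
      obtain ⟨ψ, hψ⟩ := h1 j h
      have := hconj _ _ (hT j) (hT j) hc ψ
      exact hψ (by omega)
    refine ⟨{j, j'}, ⟨j, Finset.mem_insert_self _ _⟩, ?_,
      split_const hν {j, j'} (K := 2 * h) fun ψ => ?_⟩
    · rw [← Finset.card_pos, Finset.card_compl, Finset.card_pair hne, Fintype.card_fin]
      omega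
    · rw [Finset.sum_pair hne]
      exact hconj _ _ (hT j) (hT j') hc ψ
  push Not at h2
  -- the columns
  set X : Fin n → Ω := fun j => x (I j) with hX
  have hcd := hcard hT h2
  set S := Finset.univ.image X with hS
  have hrep : ∀ ω : Ω, ω ∈ S → ∃ j, X j = ω := by
    intro ω hω
    obtain ⟨j, _, hj⟩ := Finset.mem_image.1 hω
    exact ⟨j, hj⟩
  have hne : Nonempty (Fin n) := ⟨⟨0, by omega⟩⟩
  let rep : Ω → Fin n := fun ω => if hω : ω ∈ S then (hrep ω hω).choose else Classical.choice hne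
  have hrep' : ∀ ω ∈ S, X (rep ω) = ω := by
    intro ω hω
    simp only [rep, dif_pos hω]
    exact (hrep ω hω).choose_spec
  have hXS : ∀ j, X j ∈ S := fun j => Finset.mem_image_of_mem X (Finset.mem_univ j)
  set J := S.image rep with hJ
  have hcJ : J.card = S.card := by
    rw [hJ, Finset.card_image_of_injOn]
    intro ω hω ω' hω' he
    rw [← hrep' ω hω, ← hrep' ω' hω', he]
  have hJrep : ∀ j ∈ J, rep (X j) = j := by
    intro j hj
    obtain ⟨ω, hω, rfl⟩ := Finset.mem_image.1 hj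
    rw [hrep' ω hω]
  have hrJ : ∀ j, rep (X j) ∈ J := fun j => Finset.mem_image_of_mem rep (hXS j)
  have hcc : J.card + Jᶜ.card = n := by
    rw [Finset.card_add_card_compl, Fintype.card_fin]
  refine ⟨J, ⟨rep (X (Classical.choice hne)), hrJ _⟩, ?_, ?_⟩
  · rw [← Finset.card_pos]
    omega
  obtain ⟨js, _, hmax⟩ := Finset.exists_max_image Finset.univ
    (fun j => (Finset.univ.filter fun i => X i = X j).card) (Finset.univ_nonempty)
  set μ := (Finset.univ.filter fun i => X i = X js).card with hμ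
  have hμ1 : 1 ≤ μ := Finset.card_pos.2 ⟨js, by simp⟩
  -- the upper bound
  obtain ⟨ψs, hs1, hs2⟩ := hex _ (hT js)
  have hA : ν + m * μ ≤ n * h := by
    have e1 : ∑ j, (f ψs (I j) + if X j = X js then m else 0) ≤ ∑ _j : Fin n, h := by
      refine Finset.sum_le_sum fun j _ => ?_
      by_cases hj : X j = X js
      · rw [if_pos hj]
        exact (hs1 _ (hT j) hj).le
      · rw [if_neg hj, add_zero]
        exact hs2 _ (hT j) (h2 js j)
    rw [Finset.sum_add_distrib, ← Finset.sum_filter, Finset.sum_const, Finset.sum_const,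
      Finset.card_univ, Fintype.card_fin, smul_eq_mul, smul_eq_mul] at e1
    have e2 := hν ψs
    have e3 : m * μ = μ * m := mul_comm _ _
    rw [← hμ] at e1
    omega
  -- the hits
  have hB : ∀ ψ, J.card * h ≤ ∑ j ∈ J, f ψ (I j) + m := by
    intro ψ
    have e1 : ∑ _j ∈ J, h ≤ ∑ j ∈ J, (f ψ (I j) + if hit ψ (X j) then m else 0) := by
      refine Finset.sum_le_sum fun j _ => ?_
      by_cases hj : hit ψ (X j)
      · rw [if_pos hj]; exact hlow ψ _ (hT j)
      · rw [if_neg hj, add_zero]; exact hlow' ψ _ (hT j) hj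
    rw [Finset.sum_add_distrib, ← Finset.sum_filter, Finset.sum_const, Finset.sum_const,
      smul_eq_mul, smul_eq_mul] at e1
    have e2 : (J.filter fun j => hit ψ (X j)).card ≤ 1 := by
      rw [Finset.card_le_one]
      intro a ha b hb
      rw [Finset.mem_filter] at ha hb
      have := huniq ψ _ _ (hT a) (hT b) ha.2 hb.2
      rw [← hJrep a ha.1, ← hJrep b hb.1]
      exact congrArg rep this
    have e3 := Nat.mul_le_mul_right m e2
    omega
  have hC : ∀ ψ, Jᶜ.card * h ≤ ∑ j ∈ Jᶜ, f ψ (I j) + m * (μ - 1) := by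
    intro ψ
    have e1 : ∑ _j ∈ Jᶜ, h ≤ ∑ j ∈ Jᶜ, (f ψ (I j) + if hit ψ (X j) then m else 0) := by
      refine Finset.sum_le_sum fun j _ => ?_
      by_cases hj : hit ψ (X j)
      · rw [if_pos hj]; exact hlow ψ _ (hT j)
      · rw [if_neg hj, add_zero]; exact hlow' ψ _ (hT j) hj
    rw [Finset.sum_add_distrib, ← Finset.sum_filter, Finset.sum_const, Finset.sum_const,
      smul_eq_mul, smul_eq_mul] at e1
    have e2 : (Jᶜ.filter fun j => hit ψ (X j)).card ≤ μ - 1 := by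
      rcases (Jᶜ.filter fun j => hit ψ (X j)).eq_empty_or_nonempty with h0 | ⟨j0, hj0⟩
      · rw [h0, Finset.card_empty]; exact Nat.zero_le _
      · rw [Finset.mem_filter] at hj0
        have e3 : (Jᶜ.filter fun j => hit ψ (X j)) ⊆
            (Finset.univ.filter fun i => X i = X j0).erase (rep (X j0)) := by
          intro a ha
          rw [Finset.mem_filter] at ha
          rw [Finset.mem_erase, Finset.mem_filter]
          refine ⟨?_, Finset.mem_univ _, huniq ψ _ _ (hT a) (hT j0) ha.2 hj0.2⟩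
          rintro rfl
          exact (Finset.mem_compl.1 ha.1) (hrJ j0)
        have e4 := Finset.card_le_card e3
        have e6 : rep (X j0) ∈ Finset.univ.filter fun i => X i = X j0 := by
          rw [Finset.mem_filter]
          exact ⟨Finset.mem_univ _, hrep' _ (hXS j0)⟩
        rw [Finset.card_erase_of_mem e6] at e4
        have e5 := hmax j0 (Finset.mem_univ _)
        omega
    have e3 := Nat.mul_le_mul_left m e2
    rw [mul_comm m] at e3
    omega
  refine adjust (c' := J.card * h - m) (c'' := Jᶜ.card * h - m * (μ - 1)) ?_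
    (fun ψ => ?_) (fun ψ => ?_)
  · have e1 : J.card * h + Jᶜ.card * h = n * h := by rw [← add_mul, hcc]
    have e2 : m + m * (μ - 1) = m * μ := by
      obtain ⟨r, hr⟩ : ∃ r, μ = r + 1 := ⟨μ - 1, by omega⟩
      rw [hr, Nat.add_sub_cancel]
      ring
    omega
  · have := hB ψ; omega
  · have := hC ψ; omega

end Pool.Agent.U625.KP
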