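import Pool.Agent.U625.GP.Defs

/-!
# Powers of ordinary varieties of K3 type: definitions
-/

open CategoryTheory AlgebraicGeometry

universe u v

namespace Pool.Agent.U625.KP

open Pool.Agent.H914 Pool.Agent.H914.VarClass Pool.Agent.H914.VarClass.Obj
  Pool.Agent.H914.WeilCohomology Pool.Agent.W534 Pool.Agent.R940 Pool.Agent.N204.GT
open Pool.Agent.U625.GP
open Pool.Agent.Y163 (pw)

variable {k : Type u} [Field k] {𝒱 : VarClass k} {ops : CycleOps 𝒱}
  {W : WeilCohomology.{u, v} ops} {p : ℕ}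

/-- The number `β` is a root of unity times `q ^ (i / 2)`, and `i` is even. -/
def IsTateNumber (q i : ℕ) (β : ℂ) : Prop :=
  Even i ∧ ∃ N : ℕ, 0 < N ∧ β ^ (2 * N) = (q : ℂ) ^ (i * N)

/-- `X` is an ordinary variety of K3 type: let `q = p ^ (Φ.e X)` be the number of elements of the
field of definition. The Frobenius eigenvalues on `H^i(X)` are roots of unity times `q ^ (i / 2)`, `i`
even, or `i = 2 h` and they are roots of the irreducible polynomial `Q`. One of the roots of `Q` in an
algebraic closure of the field of `p`-adic numbers, `y₀`, has the absolute value `q ^ (-(h - m))` (the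
slope `h - m`), and all roots different from `y₀` and `q ^ (2 h) / y₀` have the absolute value `q ^ (-h)`
(the slope `h`). For K3 surfaces `h = m = 1`, for cubic fourfolds `h = 2`, `m = 1`. -/
structure IsOrdinaryOfK3Type [Fact p.Prime] (Φ : FrobSystem W p) (σ : W.K →+* ℂ) (X : 𝒱.Obj)
    (h m : ℕ) (Q : Polynomial ℚ) : Prop where
  irreducible : Irreducible Q
  le : m ≤ h
  eigenvalues : ∀ (i : ℕ) (β : ℂ), (frobPoly Φ σ X 1 i).IsRoot β →
    IsTateNumber (p ^ Φ.e X) i β ∨ (i = 2 * h ∧ Polynomial.aeval β Q = 0)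
  slopes : ∃ y₀ : PadicAlgCl p, Polynomial.aeval y₀ Q = 0 ∧
    ‖y₀‖ = ((p : ℝ) ^ (Φ.e X * (h - m)))⁻¹ ∧ ∀ y : PadicAlgCl p, Polynomial.aeval y Q = 0 →
      y = y₀ ∨ y * y₀ = (p : PadicAlgCl p) ^ (Φ.e X * (2 * h)) ∨
        ‖y‖ = ((p : ℝ) ^ (Φ.e X * h))⁻¹

/-- The class `x` on `X ^ (n + 1)` is the product of the pull-backs, under the projections belonging
to a partition of the set of the `n + 1` factors into the nonempty sets `{e 0, ..., e a}` and
`{e' 0, ..., e' b}`, of classes `v` on `X ^ (a + 1)` and `w` on `X ^ (b + 1)` which lie in subspaces `V'` of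
`H^i'` and `V''` of `H^i''` with `V'(c')` and `V''(c'')` effective, where `i' + i'' = i` and
`c' + c'' = c`. -/
def IsExteriorProductOnPower (Φ : FrobSystem W p) (X : 𝒱.Obj) (n i c : ℕ)
    (x : W.H (pw X n)) : Prop :=
  ∃ (a b : ℕ) (e : Fin (a + 1) → Fin (n + 1)) (e' : Fin (b + 1) → Fin (n + 1))
    (f : pw X n ⟶ pw X a) (g : pw X n ⟶ pw X b), Function.Bijective (Sum.elim e e') ∧
    IsProjection e f ∧ IsProjection e' g ∧
    ∃ (i' i'' c' c'' : ℕ) (v : W.H (pw X a)) (w : W.H (pw X b)),
      i' + i'' = i ∧ c' + c'' = c ∧ InEffective Φ i' c' v ∧ InEffective Φ i'' c'' w ∧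
      x = mulApp (W.map f) (W.map g) v w

/-- There are no new effective twists on `X ^ (n + 1)`: every subspace `V` of `H^i(X ^ (n + 1))` which is
stable under the Frobenius endomorphism, with `V(c)` effective, is contained in the span of the
exterior products of classes in such subspaces for smaller powers of `X`. -/
def NoNewEffectiveOnPower (Φ : FrobSystem W p) (X : 𝒱.Obj) (n : ℕ) : Prop :=
  ∀ (i c : ℕ) (V : Subspace W (pw X n)), IsEffective Φ i c V →
    Within V (spanOf W.K (IsExteriorProductOnPower Φ X n i c))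

/-- The number of factors: `max (2, deg Q / 2)`. -/
def factors (Q : Polynomial ℚ) : ℕ := max 2 (Q.natDegree / 2)

/-- For each Frobenius eigenvalue `α` of `Z` there is an `N > 0` such that `ℚ(α ^ N)` and the splitting
fields (in `ℂ`) of the polynomials `Q 0`, ..., `Q (r - 1)` are linearly disjoint. -/
def DisjointSplittingFields (Φ : FrobSystem W p) (σ : W.K →+* ℂ) (Z : 𝒱.Obj) {r : ℕ}
    (Q : Fin r → Polynomial ℚ) : Prop :=
  ∀ α : ℂ, IsFrobeniusEigenvalue Φ σ Z α → ∃ N : ℕ, 0 < N ∧ ∀ i : Fin r,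
    (IntermediateField.adjoin ℚ
      ({α ^ N} ∪ {x | ∃ j < i, Polynomial.aeval x (Q j) = 0})).LinearDisjoint
        (IntermediateField.adjoin ℚ {x : ℂ | Polynomial.aeval x (Q i) = 0})

end Pool.Agent.U625.KP
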