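import Pool.Agent.U625.KP.Main

/-!
# The number of factors is optimal
-/

set_option linter.unusedVariables false
set_option linter.unusedSectionVars false

open CategoryTheory AlgebraicGeometry CategoryTheory.Limits TensorProduct

universe u v

namespace Pool.Agent.U625.KP

open Pool.Agent.H914 Pool.Agent.H447 Pool.Agent.W534 Pool.Agent.Y163 VarClass Obj WeilCohomology
  Module Polynomial
open Pool.Agent.R940 hiding mem_of_baseChange
open Pool.Agent.N204.GT
open Pool.Agent.U625.GP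
open Pool.Agent.R908 (baseFrob base_map_tmul base_induction_mod)
open Pool.Agent.N204.GH (cv push_cv ext_cv cv_anti push_mem_cv map_iso_cv bij_of_perm)

variable {k : Type u} [Field k] {𝒱 : VarClass k} {ops : CycleOps 𝒱}
  {W : WeilCohomology.{u, v} ops} {X Y Y' Z U S : 𝒱.Obj} {p : ℕ}
  [hp : Fact p.Prime] {Φ : FrobSystem W p} {σ : W.K →+* ℂ}
  {h m : ℕ} {Q : ℚ[X]}

section

variable {ι : Type v} [Fintype ι] [DecidableEq ι] {B : HBasis W X ι} {lam : ι → W.K}

/-- The monomials in a class of given coniveau. -/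
lemma coef_div (hB : IsEig Φ B lam) (hF : ∀ l, IsIntegral ℤ (lam l))
    [Algebra.IsAlgebraic ℚ (EF lam)] {f : (EF lam →ₐ[ℚ] PadicAlgCl p) → ι → ℕ}
    (hf : ∀ ψ l, ‖ψ (el lam l)‖ = ((p : ℝ) ^ (Φ.e X * f ψ l))⁻¹) {n : ℕ}
    {bs : Basis (Fin (n + 1) → ι) W.K (W.H (pw X n))} (hbs : ∀ I, bs I = mon B n I) {i ν : ℕ}
    {c : W.H (pw X n)} (hc : Cn Φ (pw X n) i ν c) {I : Fin (n + 1) → ι}
    (h0 : bs.repr c I ≠ 0) : ∀ ψ, ν ≤ ∑ j, f ψ (I j) := by
  obtain ⟨s, α₀, hs, hα₀, hE, hgr⟩ := hc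
  have he := Φ.e_pos X
  obtain ⟨S, S', hS, hS', hSS, hfr⟩ := frob_pr Φ X n
  have hEq : (∏ j, lam (I j)) ^ (S' * s) = α₀ ^ S := by
    by_contra hne
    apply h0
    have h3 : c ∈ (frob Φ (pw X n) (S * s)).maxGenEigenspace (α₀ ^ S) := by
      have h4 := gen_mono _ _ S hE
      rwa [← frob_mul_eq, mul_comm s S] at h4
    refine repr_zero (Module.End.independent_maxGenEigenspace (frob Φ (pw X n) (S * s))) bs
      (fun I => (∏ j, lam (I j)) ^ (S' * s)) (fun I => ?_) h3 hne
    rw [hbs]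
    exact mon_gen Φ hB hfr I s
  have hdiv : IsIntegral ℤ ((∏ j, lam (I j)) / (p : W.K) ^ (Φ.e X * ν)) := by
    refine IsIntegral.of_pow (Nat.mul_pos hS' hs) ?_
    have e1 : ((∏ j, lam (I j)) / (p : W.K) ^ (Φ.e X * ν)) ^ (S' * s) =
        (α₀ / (p : W.K) ^ (Φ.e (pw X n) * s * ν)) ^ S := by
      rw [div_pow, div_pow, hEq, ← pow_mul, ← pow_mul]
      congr 2
      calc Φ.e X * ν * (S' * s) = (S' * Φ.e X) * (ν * s) := by ring
        _ = (S * Φ.e (pw X n)) * (ν * s) := by rw [hSS]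
        _ = _ := by ring
    rw [e1]
    exact hα₀.pow S
  rwa [div_prod hF he hf] at hdiv

/-- The monomials in an exterior product. -/
lemma coef_ext {n a b : ℕ} {e : Fin (a + 1) → Fin (n + 1)} {e' : Fin (b + 1) → Fin (n + 1)}
    (hperm : (List.ofFn e ++ List.ofFn e').Perm (List.finRange (n + 1)))
    {bs : Basis (Fin (n + 1) → ι) W.K (W.H (pw X n))} (hbs : ∀ I, bs I = mon B n I)
    {ba : Basis (Fin (a + 1) → ι) W.K (W.H (pw X a))} (hba : ∀ I, ba I = mon B a I)
    {bb : Basis (Fin (b + 1) → ι) W.K (W.H (pw X b))} (hbb : ∀ I, bb I = mon B b I)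
    (v : W.H (pw X a)) (w : W.H (pw X b)) {I : Fin (n + 1) → ι}
    (h0 : bs.repr (W.map (proj X e) v * W.map (proj X e') w) I ≠ 0) :
    ba.repr v (I ∘ e) ≠ 0 ∧ bb.repr w (I ∘ e') ≠ 0 := by
  by_contra hcon
  apply h0
  have hbij := bij_of_perm hperm
  let g := Equiv.ofBijective _ hbij
  have hv : v = ∑ I', ba.repr v I' • mon B a I' := by
    conv_lhs => rw [← ba.sum_repr v]
    exact Finset.sum_congr rfl fun I' _ => by rw [hba]
  have hw : w = ∑ I', bb.repr w I' • mon B b I' := by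
    conv_lhs => rw [← bb.sum_repr w]
    exact Finset.sum_congr rfl fun I' _ => by rw [hbb]
  have e1 : W.map (proj X e) v * W.map (proj X e') w = ∑ I', ∑ I'',
      (ba.repr v I' * bb.repr w I'') •
        (W.map (proj X e) (mon B a I') * W.map (proj X e') (mon B b I'')) := by
    conv_lhs => rw [hv, hw]
    rw [map_sum, map_sum, Finset.sum_mul]
    refine Finset.sum_congr rfl fun I' _ => ?_
    rw [Finset.mul_sum]
    refine Finset.sum_congr rfl fun I'' _ => ?_
    rw [map_smul, map_smul, smul_mul_smul_comm]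
  rw [e1, map_sum, Finsupp.finsetSum_apply]
  refine Finset.sum_eq_zero fun I' _ => ?_
  rw [map_sum, Finsupp.finsetSum_apply]
  refine Finset.sum_eq_zero fun I'' _ => ?_
  let J : Fin (n + 1) → ι := fun i => Sum.elim I' I'' (g.symm i)
  have hJ1 : J ∘ e = I' := by
    funext s
    have h2 : g.symm (e s) = Sum.inl s := by
      rw [Equiv.symm_apply_eq]
      rfl
    simp only [J, Function.comp_apply, h2, Sum.elim_inl]
  have hJ2 : J ∘ e' = I'' := by
    funext s
    have h2 : g.symm (e' s) = Sum.inr s := by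
      rw [Equiv.symm_apply_eq]
      rfl
    simp only [J, Function.comp_apply, h2, Sum.elim_inr]
  obtain ⟨ε, hε⟩ := mon_split B J e e' hperm
  rw [← proj_eq, ← proj_eq, hJ1, hJ2] at hε
  have hε0 : ε ≠ 0 := by
    rintro rfl
    rw [zero_smul, ← hbs] at hε
    exact bs.ne_zero J hε
  have e2 : W.map (proj X e) (mon B a I') * W.map (proj X e') (mon B b I'') = ε⁻¹ • bs J := by
    rw [hbs, hε, smul_smul, inv_mul_cancel₀ hε0, one_smul]
  rw [e2, smul_smul, map_smul, Finsupp.smul_apply, bs.repr_self]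
  by_cases hJI : J = I
  · rw [not_and_or, not_not, not_not, ← hJI, hJ1, hJ2] at hcon
    rcases hcon with h1 | h1
    · rw [h1, zero_mul, zero_mul, zero_smul]
    · rw [h1, mul_zero, zero_mul, zero_smul]
  · rw [Finsupp.single_apply, if_neg hJI, smul_zero]

/-- All roots of `Q` are eigenvalues. -/
lemma exists_letter [IsAlgClosed W.K] (hB : IsEig Φ B lam) (hint : HasIntegralPolys Φ σ X)
    (hQ : Irreducible Q) {i : ℕ} (hβ : ∃ β : ℂ, (frobPoly Φ σ X 1 i).IsRoot β ∧ aeval β Q = 0)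
    {r : W.K} (hr : aeval r Q = 0) : ∃ l, B.deg l = i ∧ lam l = r := by
  obtain ⟨β, hβ1, hβ2⟩ := hβ
  obtain ⟨P, hP⟩ := hint i
  have h1 : (frobOn Φ X 1 i).charpoly = P.map (Int.castRingHom W.K) := by
    apply Polynomial.map_injective σ σ.injective
    rw [← frobPoly_eq, hP, Polynomial.map_map]
    congr 1
    exact RingHom.ext_int _ _
  have hdvd : Q ∣ P.map (Int.castRingHom ℚ) := by
    have h2 : aeval β (P.map (Int.castRingHom ℚ)) = 0 := by
      rw [hP, IsRoot.def, Polynomial.eval_map] at hβ1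
      rw [aeval_def, eval₂_map, ← hβ1]
      congr 1
    obtain ⟨R, hR⟩ := minpoly.dvd ℚ β h2
    obtain ⟨c, hc⟩ := minpoly.dvd ℚ β hβ2
    have h3 : IsUnit c := by
      rcases hQ.isUnit_or_isUnit hc with h4 | h4
      · exact absurd h4 (minpoly.not_isUnit ℚ _)
      · exact h4
    obtain ⟨d, rfl⟩ := h3
    refine ⟨(d⁻¹ : ℚ[X]ˣ) * R, ?_⟩
    rw [hR, hc, mul_assoc, ← mul_assoc (d : ℚ[X]), Units.mul_inv, one_mul]
  have h2 : (frobOn Φ X 1 i).charpoly.IsRoot r := by
    obtain ⟨R, hR⟩ := hdvd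
    have h3 : aeval r (P.map (Int.castRingHom ℚ)) = 0 := by rw [hR, map_mul, hr, zero_mul]
    rw [h1, IsRoot.def, Polynomial.eval_map]
    rw [aeval_def, eval₂_map] at h3
    rw [← h3]
    congr 1
    exact RingHom.ext_int _ _
  obtain ⟨z, hz1, hz2⟩ :=
    ((Module.End.hasEigenvalue_iff_isRoot_charpoly _ _).2 h2).exists_hasEigenvector
  have hz3 : frobOn Φ X 1 i z = r • z := Module.End.mem_eigenspace_iff.1 hz1
  have hE : (z : W.H X) ∈ (frob Φ X 1).maxGenEigenspace r := by
    refine (Module.End.mem_maxGenEigenspace _ _ _).2 ⟨1, ?_⟩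
    rw [pow_one, LinearMap.sub_apply, sub_eq_zero]
    exact congrArg Subtype.val hz3
  obtain ⟨l, hl⟩ : ∃ l, B.b.repr (z : W.H X) l ≠ 0 := by
    by_contra hcon
    push Not at hcon
    have h0 : (z : W.H X) = 0 := B.b.ext_elem fun I => by
      rw [hcon, map_zero, Finsupp.zero_apply]
    exact hz2 (Subtype.ext h0)
  refine ⟨l, ?_, ?_⟩
  · by_contra hne
    exact hl (repr_zero (W.isInternal X).submodule_iSupIndep B.b B.deg B.mem z.2 hne)
  · by_contra hne
    exact hl (repr_zero (Module.End.independent_maxGenEigenspace (frob Φ X 1)) B.b lam hB hE hne)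

end

/-- A set of `d` elements without pairs of conjugates. -/
lemma exists_half {R : Type*} (S : Finset R) (τ : R → R) (hτ : ∀ x ∈ S, τ x ∈ S)
    (hττ : ∀ x ∈ S, τ (τ x) = x) (hne : ∀ x ∈ S, τ x ≠ x) {d : ℕ} (hd : 2 * d ≤ S.card) :
    ∃ T ⊆ S, T.card = d ∧ ∀ x ∈ T, ∀ y ∈ T, τ x ≠ y := by
  classical
  induction d with
  | zero => exact ⟨∅, Finset.empty_subset _, rfl, by simp⟩
  | succ d ih =>
    obtain ⟨T, hT1, hTd, hT2⟩ := ih (by omega)
    have h1 : (T ∪ T.image τ).card ≤ 2 * T.card := by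
      refine (Finset.card_union_le _ _).trans ?_
      have := Finset.card_image_le (s := T) (f := τ)
      omega
    obtain ⟨z, hz, hz'⟩ : ∃ z ∈ S, z ∉ T ∪ T.image τ := by
      by_contra hcon'
      push Not at hcon'
      have := Finset.card_le_card (s := S) (t := T ∪ T.image τ) hcon'
      omega
    rw [Finset.mem_union, not_or] at hz'
    refine ⟨insert z T, Finset.insert_subset hz hT1, ?_, ?_⟩
    · rw [Finset.card_insert_of_notMem hz'.1, hTd]
    · intro x hx y hy
      rcases Finset.mem_insert.1 hx with hx | hx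
      · rcases Finset.mem_insert.1 hy with hy | hy
        · rw [hx, hy]
          exact hne _ hz
        · intro hc
          apply hz'.2
          rw [Finset.mem_image]
          exact ⟨y, hy, by rw [← hc, hx, hττ _ hz]⟩
      · rcases Finset.mem_insert.1 hy with hy | hy
        · intro hc
          exact hz'.2 (Finset.mem_image.2 ⟨x, hx, hc.trans hy⟩)
        · exact hT2 x hx y hy

section

variable {ι : Type v} [Fintype ι] [DecidableEq ι] {B : HBasis W X ι} {lam : ι → W.K}

/-- A word of each length up to `factors Q` whose divisibility does not split. -/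
theorem exists_word [IsAlgClosed W.K] (hB : IsEig Φ B lam) (hRH : RiemannHyp Φ σ X)
    (hint : HasIntegralPolys Φ σ X) (hK : IsOrdinaryOfK3Type Φ σ X h m Q) (hm : 0 < m)
    (hocc : ∃ β : ℂ, (frobPoly Φ σ X 1 (2 * h)).IsRoot β ∧ aeval β Q = 0) {n : ℕ}
    (hn : n + 1 ≤ factors Q) :
    ∃ (f : (EF lam →ₐ[ℚ] PadicAlgCl p) → ι → ℕ) (I : Fin (n + 1) → ι) (ν : ℕ),
      (∀ ψ l, ‖ψ (el lam l)‖ = ((p : ℝ) ^ (Φ.e X * f ψ l))⁻¹) ∧
      (∀ ψ, ν ≤ ∑ j, f ψ (I j)) ∧
      ∀ (a b : ℕ) (e : Fin (a + 1) → Fin (n + 1)) (e' : Fin (b + 1) → Fin (n + 1)) (c' c'' : ℕ),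
        (List.ofFn e ++ List.ofFn e').Perm (List.finRange (n + 1)) → c' + c'' = ν →
        (∀ ψ, c' ≤ ∑ t, f ψ (I (e t))) → (∀ ψ, c'' ≤ ∑ t, f ψ (I (e' t))) → False := by
  classical
  obtain ⟨f, T, y₀, hf, g1, g2, g3, g4, g5, g6, g7⟩ := exists_slopes hB hRH hint hK
  have hle := hK.le
  have hpK : (p : W.K) ≠ 0 := Nat.cast_ne_zero.2 hp.out.ne_zero
  have hx0 : ∀ l, lam l ≠ 0 := fun l => gen_ne_zero (hB l) (B.b.ne_zero l)
  set P : W.K := (p : W.K) ^ (Φ.e X * (2 * h)) with hP
  have hP0 : P ≠ 0 := pow_ne_zero _ hpK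
  -- the parts
  have hpart : ∀ (a : ℕ) (w : Fin (a + 1) → ι), (∀ t, T (w t)) →
      (∀ t, t ≠ 0 → ¬ (lam (w 0) * lam (w t) = P)) → ∀ c', (∀ ψ, c' ≤ ∑ t, f ψ (w t)) →
      c' + m ≤ (a + 1) * h := by
    intro a w hT hc c' hc'
    obtain ⟨ψ, q1, q2⟩ := g5 (w 0) (hT 0)
    have h1 : ∀ t, f ψ (w t) + (if t = 0 then m else 0) ≤ h := by
      intro t
      split_ifs with ht
      · rw [ht]; exact (q1 _ (hT 0) rfl).le
      · rw [add_zero]; exact q2 _ (hT t) (hc t ht)
    have h2 := Finset.sum_le_sum fun t (_ : t ∈ Finset.univ) => h1 t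
    rw [Finset.sum_add_distrib, Finset.sum_ite_eq' Finset.univ (0 : Fin (a + 1)) (fun _ => m),
      if_pos (Finset.mem_univ _), Finset.sum_const, Finset.card_univ, Fintype.card_fin,
      smul_eq_mul] at h2
    have := hc' ψ
    omega
  have hlet : ∀ r : W.K, aeval r Q = 0 → ∃ l, T l ∧ lam l = r := by
    intro r hr
    obtain ⟨l, h1, h2⟩ := exists_letter hB hint hK.irreducible hocc hr
    exact ⟨l, g7 l h1 (by rw [h2]; exact hr), h2⟩
  obtain ⟨r₀, hr₀⟩ := IsAlgClosed.exists_aeval_eq_zero W.K Q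
    (degree_pos_of_irreducible hK.irreducible).ne'
  obtain ⟨l₀, hT₀, hl₀⟩ := hlet r₀ hr₀
  rcases n with _ | n
  · refine ⟨f, fun _ => l₀, 0, hf, fun ψ => Nat.zero_le _, ?_⟩
    intro a b e e' c' c'' hperm
    exfalso
    have := hperm.length_eq
    rw [List.length_append, List.length_ofFn, List.length_ofFn, List.length_finRange] at this
    omega
  rcases n with _ | n
  · obtain ⟨l₁, hT₁, hl₁⟩ := hlet _ (g6 l₀ hT₀).2
    have hmul : lam l₀ * lam l₁ = P := by rw [hl₁, mul_div_cancel₀ _ (hx0 _)]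
    refine ⟨f, ![l₀, l₁], 2 * h, hf, fun ψ => ?_, ?_⟩
    · rw [Fin.sum_univ_two]
      exact (g2 l₀ l₁ hT₀ hT₁ hmul ψ).ge
    · intro a b e e' c' c'' hperm hcc h1 h2
      have hlen := hperm.length_eq
      rw [List.length_append, List.length_ofFn, List.length_ofFn, List.length_finRange] at hlen
      obtain rfl : a = 0 := by omega
      obtain rfl : b = 0 := by omega
      have hTI : ∀ j, T (![l₀, l₁] j) := by
        intro j
        fin_cases j
        · exact hT₀
        · exact hT₁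
      have h3 := hpart 0 (fun t => ![l₀, l₁] (e t)) (fun t => hTI _)
        (fun t ht => absurd (Subsingleton.elim (α := Fin 1) t 0) ht) c' h1
      have h4 := hpart 0 (fun t => ![l₀, l₁] (e' t)) (fun t => hTI _)
        (fun t ht => absurd (Subsingleton.elim (α := Fin 1) t 0) ht) c'' h2
      omega
  -- many letters
  have hnQ : 2 * (n + 1 + 1 + 1) ≤ Q.natDegree := by
    unfold factors at hn
    rcases le_max_iff.1 hn with h1 | h1
    · omega
    · omega
  have hsep : Q.Separable := hK.irreducible.separable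
  let S : Finset W.K := (Q.aroots W.K).toFinset
  have hS : ∀ r, r ∈ S ↔ aeval r Q = 0 := by
    intro r
    rw [Multiset.mem_toFinset, mem_aroots]
    exact ⟨fun h => h.2, fun h => ⟨hK.irreducible.ne_zero, h⟩⟩
  have hcard : S.card = Q.natDegree := by
    have h1 := card_rootSet_eq_natDegree (K := W.K) hsep (IsAlgClosed.splits _)
    rw [← h1, ← Set.toFinset_card]
    congr 1
    ext r
    rw [Set.mem_toFinset, mem_rootSet, hS]
    exact ⟨fun h => ⟨hK.irreducible.ne_zero, h⟩, fun h => h.2⟩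
  obtain ⟨T', hT', hcT, hdis⟩ := exists_half S (fun r => P / r) (by
      intro r hr
      obtain ⟨l, h1, h2⟩ := hlet r ((hS r).1 hr)
      rw [hS, ← h2]
      exact (g6 l h1).2) (by
      intro r hr
      exact div_div_cancel₀ hP0) (by
      intro r hr hc
      obtain ⟨l, h1, h2⟩ := hlet r ((hS r).1 hr)
      have h3 : lam l * lam l = P := by
        rw [h2]
        have hr0 : r ≠ 0 := by rw [← h2]; exact hx0 l
        have h4 : P / r = r := hc
        rw [div_eq_iff hr0] at h4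
        exact h4.symm
      obtain ⟨ψ, q1, -⟩ := g5 l h1
      have h4 := q1 l h1 rfl
      have h5 := g2 l l h1 h1 h3 ψ
      omega) (d := n + 1 + 1 + 1) (by rw [hcard]; exact hnQ)
  let E : T' ≃ Fin (n + 1 + 1 + 1) := Finset.equivFinOfCardEq hcT
  choose I hTI hI using fun j => hlet (E.symm j : W.K) ((hS _).1 (hT' (E.symm j).2))
  have hdist : ∀ j j', j ≠ j' → el lam (I j) ≠ el lam (I j') := by
    intro j j' hne h1
    apply hne
    apply E.symm.injective
    apply Subtype.ext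
    rw [← hI, ← hI]
    exact congrArg Subtype.val h1
  have hnc : ∀ j j', ¬ (lam (I j) * lam (I j') = P) := by
    intro j j' h1
    refine hdis _ (E.symm j).2 _ (E.symm j').2 ?_
    rw [← hI, ← hI, ← h1, mul_div_cancel_left₀ _ (hx0 _)]
  refine ⟨f, I, (n + 1 + 1 + 1) * h - m, hf, ?_, ?_⟩
  · intro ψ
    by_cases h0 : ∃ j₀, ψ (el lam (I j₀)) = y₀
    · obtain ⟨j₀, hj₀⟩ := h0
      have h1 : ∀ j, h ≤ f ψ (I j) + (if j = j₀ then m else 0) := by
        intro j
        split_ifs with hj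
        · exact g3 ψ _ (hTI j)
        · rw [add_zero]
          refine g4 ψ _ (hTI j) fun h2 => hdist j j₀ hj (ψ.toRingHom.injective (h2.trans hj₀.symm))
      have h2 := Finset.sum_le_sum fun t (_ : t ∈ Finset.univ) => h1 t
      rw [Finset.sum_add_distrib, Finset.sum_ite_eq' Finset.univ j₀ (fun _ => m),
        if_pos (Finset.mem_univ _), Finset.sum_const, Finset.card_univ, Fintype.card_fin,
        smul_eq_mul] at h2
      omega
    · push Not at h0
      have h1 : ∀ j, h ≤ f ψ (I j) := fun j => g4 ψ _ (hTI j) (h0 j)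
      have h2 := Finset.sum_le_sum fun t (_ : t ∈ Finset.univ) => h1 t
      rw [Finset.sum_const, Finset.card_univ, Fintype.card_fin, smul_eq_mul] at h2
      omega
  · intro a b e e' c' c'' hperm hcc h1 h2
    have hlen := hperm.length_eq
    rw [List.length_append, List.length_ofFn, List.length_ofFn, List.length_finRange] at hlen
    have h3 := hpart a (fun t => I (e t)) (fun t => hTI _) (fun t ht => hnc _ _) c' h1
    have h4 := hpart b (fun t => I (e' t)) (fun t => hTI _) (fun t ht => hnc _ _) c'' h2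
    have h5 : (n + 1 + 1 + 1) * h = (a + 1) * h + (b + 1) * h := by rw [← add_mul, hlen]
    have h6 : h ≤ (n + 1 + 1 + 1) * h := Nat.le_mul_of_pos_left h (by omega)
    omega

/-- A class of given coniveau which is not in the span of the exterior products. -/
theorem exists_not_split [IsAlgClosed W.K] (hB : IsEig Φ B lam) (hRH : RiemannHyp Φ σ X)
    (hint : HasIntegralPolys Φ σ X) (hK : IsOrdinaryOfK3Type Φ σ X h m Q) (hm : 0 < m)
    (hocc : ∃ β : ℂ, (frobPoly Φ σ X 1 (2 * h)).IsRoot β ∧ aeval β Q = 0) {n : ℕ}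
    (hn : n + 1 ≤ factors Q) :
    ∃ (i ν : ℕ) (x : W.H (pw X n)) (g : W.H (pw X n) →ₗ[W.K] W.K), Cn Φ (pw X n) i ν x ∧ g x ≠ 0 ∧
      ∀ y, IsExtP Φ X n i ν y → g y = 0 := by
  classical
  have hF := weilFamily hB hRH hint (slopeDenominator hRH hint)
  have halg := isAlg_EF hF
  have he := Φ.e_pos X
  obtain ⟨f, I, ν, hf, h1, h2⟩ := exists_word hB hRH hint hK hm hocc hn
  obtain ⟨bs, hbs⟩ := exists_monBasis B n
  have hCN : CN p (Φ.e X) 1 lam 1 1 (cnt I) ν := by
    have h3 := (div_prod hF.int he hf I ν).2 h1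
    rw [CN, one_pow, one_mul, ← prod_cnt, mul_one, mul_one, mul_one, pow_one]
    exact h3
  refine ⟨_, ν, mon B n I, bs.coord I, mon_Cn hB one_pos hCN, ?_, ?_⟩
  · rw [← hbs, Basis.coord_apply, bs.repr_self, Finsupp.single_eq_same]
    exact one_ne_zero
  · rintro _ ⟨a, b, e, e', i', i'', c', c'', v, w, g1, g2, g3, g4, g5, rfl⟩
    by_contra hcon
    rw [Basis.coord_apply] at hcon
    obtain ⟨ba, hba⟩ := exists_monBasis B a
    obtain ⟨bb, hbb⟩ := exists_monBasis B b
    obtain ⟨q1, q2⟩ := coef_ext g1 hbs hba hbb v w hcon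
    exact h2 a b e e' c' c'' g1 g3 (coef_div hB hF.int hf hba g4 q1)
      (coef_div hB hF.int hf hbb g5 q2)

end

lemma perm_of_bij {n a b : ℕ} {e : Fin a → Fin n} {e' : Fin b → Fin n}
    (h : Function.Bijective (Sum.elim e e')) :
    (List.ofFn e ++ List.ofFn e').Perm (List.finRange n) := by
  refine (List.perm_ext_iff_of_nodup ?_ (List.nodup_finRange _)).2 fun x => ?_
  · rw [List.nodup_append']
    refine ⟨List.nodup_ofFn.2 fun s t hst => ?_, List.nodup_ofFn.2 fun s t hst => ?_, ?_⟩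
    · exact Sum.inl_injective (h.1 (show Sum.elim e e' (Sum.inl s) = Sum.elim e e' (Sum.inl t) from hst))
    · exact Sum.inr_injective (h.1 (show Sum.elim e e' (Sum.inr s) = Sum.elim e e' (Sum.inr t) from hst))
    · intro x hx hx'
      obtain ⟨s, hs⟩ := (List.mem_ofFn).1 hx
      obtain ⟨t, ht⟩ := (List.mem_ofFn).1 hx'
      have := h.1 (show Sum.elim e e' (Sum.inl s) = Sum.elim e e' (Sum.inr t) from hs.trans ht.symm)
      exact Sum.inl_ne_inr this
  · refine ⟨fun _ => List.mem_finRange _, fun _ => ?_⟩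
    obtain ⟨s, hs⟩ := h.2 x
    rw [List.mem_append]
    rcases s with s | s
    · exact Or.inl (List.mem_ofFn.2 ⟨s, hs⟩)
    · exact Or.inr (List.mem_ofFn.2 ⟨s, hs⟩)

/-- **The number of factors is optimal.** -/
theorem noNew_iff (hW : WeilConjectures Φ σ X) (hK : IsOrdinaryOfK3Type Φ σ X h m Q) (hm : 0 < m)
    (hocc : ∃ β : ℂ, (frobPoly Φ σ X 1 (2 * h)).IsRoot β ∧ aeval β Q = 0) {n : ℕ} :
    NoNewEffectiveOnPower Φ X n ↔ factors Q < n + 1 := by
  classical
  refine ⟨fun hNN => ?_, noNew hW hK⟩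
  by_contra hn
  rw [not_lt] at hn
  obtain ⟨σ', hσ⟩ := exists_ext (L := AlgebraicClosure W.K) σ
  have hclosed : IsAlgClosed (baseW W (AlgebraicClosure W.K)).K :=
    inferInstanceAs (IsAlgClosed (AlgebraicClosure W.K))
  set L := AlgebraicClosure W.K with hL
  obtain ⟨ι, hfin, B, lam, hB⟩ := exists_ebasis (baseFrob Φ L) X
  have hft : Fintype ι := Fintype.ofFinite ι
  have hocc' : ∃ β : ℂ, (frobPoly (baseFrob Φ L) σ' X 1 (2 * h)).IsRoot β ∧ aeval β Q = 0 := by
    obtain ⟨β, h1, h2⟩ := hocc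
    refine ⟨β, ?_, h2⟩
    rw [frobPoly_base hσ]
    exact h1
  obtain ⟨i, ν, x, g, h1, h2, h3⟩ := exists_not_split hB (riemann_base hσ hW.1)
    (integral_base hσ hW.2) (k3_base hσ hK) hm hocc' hn
  obtain ⟨V, hV, hxV⟩ := down_Cn h1
  apply h2
  have h4 : V ≤ Submodule.span W.K {x | IsExteriorProductOnPower Φ X n i ν x} := hNN i ν V hV
  have h5 : (show L ⊗[W.K] W.H (pw X n) from x) ∈
      (Submodule.span W.K {x | IsExteriorProductOnPower Φ X n i ν x}).baseChange L :=
    Submodule.baseChange_mono (A := L) h4 hxV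
  have h6 : ∀ y : W.H (pw X n), IsExteriorProductOnPower Φ X n i ν y →
      g ((1 : L) ⊗ₜ[W.K] y : L ⊗[W.K] W.H (pw X n)) = 0 := by
    rintro _ ⟨a, b, e, e', f', g', hbij, hf', hg', i', i'', c', c'', v, w, q1, q2,
      ⟨V', hV', hv⟩, ⟨V'', hV'', hw⟩, rfl⟩
    rw [isProjection_iff.1 hf', isProjection_iff.1 hg']
    have u1 := up_Cn (L := L) (Φ := Φ) (i := i') (ν := c') hV' hv
    have u2 := up_Cn (L := L) (Φ := Φ) (i := i'') (ν := c'') hV'' hw
    have e1 : ((1 : L) ⊗ₜ[W.K] (mulApp (W.map (proj X e)) (W.map (proj X e')) v w) :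
        L ⊗[W.K] W.H (pw X n)) = (show L ⊗[W.K] W.H (pw X n) from
          (baseW W L).map (proj X e) ((1 : L) ⊗ₜ[W.K] v : L ⊗[W.K] W.H (pw X a)) *
          (baseW W L).map (proj X e') ((1 : L) ⊗ₜ[W.K] w : L ⊗[W.K] W.H (pw X b))) := by
      rw [base_map_tmul, base_map_tmul]
      refine Eq.trans ?_ (Algebra.TensorProduct.tmul_mul_tmul _ _ _ _).symm
      rw [one_mul]
      rfl
    rw [e1]
    have key : ∀ x1 ∈ spC (baseFrob Φ L) (pw X a) i' c', ∀ x2 ∈ spC (baseFrob Φ L) (pw X b) i'' c'',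
        g ((baseW W L).map (proj X e) x1 * (baseW W L).map (proj X e') x2) = 0 := by
      intro x1 hx1 x2 hx2
      induction hx1 using Submodule.span_induction with
      | mem x1 hx1 =>
        induction hx2 using Submodule.span_induction with
        | mem x2 hx2 =>
          exact h3 _ ⟨a, b, e, e', i', i'', c', c'', x1, x2, perm_of_bij hbij, q1, q2, hx1, hx2, rfl⟩
        | zero => rw [map_zero, mul_zero, map_zero]
        | add a b _ _ ha hb => rw [map_add, mul_add, map_add, ha, hb, add_zero]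
        | smul c a _ ha => rw [map_smul, mul_smul_comm, map_smul, ha, smul_zero]
      | zero => rw [map_zero, zero_mul, map_zero]
      | add a b _ _ ha hb => rw [map_add, add_mul, map_add, ha, hb, add_zero]
      | smul c a _ ha => rw [map_smul, smul_mul_assoc, map_smul, ha, smul_zero]
    exact key _ u1 _ u2
  let gL : L ⊗[W.K] W.H (pw X n) →ₗ[L] L := g
  have h7 : (Submodule.span W.K {x | IsExteriorProductOnPower Φ X n i ν x}).baseChange L ≤
      LinearMap.ker gL := by
    rw [Submodule.baseChange_eq_span, Submodule.span_le]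
    rintro _ ⟨y, hy, rfl⟩
    change gL ((1 : L) ⊗ₜ[W.K] y) = 0
    change y ∈ Submodule.span W.K {x | IsExteriorProductOnPower Φ X n i ν x} at hy
    induction hy using Submodule.span_induction with
    | mem y hy => exact h6 y hy
    | zero => rw [TensorProduct.tmul_zero, map_zero]
    | add a b _ _ ha hb => rw [TensorProduct.tmul_add, map_add, ha, hb, add_zero]
    | smul c a _ ha => rw [TensorProduct.tmul_smul, ← algebraMap_smul L, map_smul, ha, smul_zero]
  exact h7 h5

/-- Only the first `factors Q` factors count. -/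
theorem gtc_pw_iff (hW : WeilConjectures Φ σ X) (hK : IsOrdinaryOfK3Type Φ σ X h m Q)
    (hb : HasBigDivisor ops X) (n : ℕ) :
    GTC Φ (pw X n) ↔ GTC Φ (pw X (min n (factors Q - 1))) := by
  have hpt' : HasPt (baseFrob Φ (AlgebraicClosure W.K)) X := HasPt.of_big hb
  have hdown : ∀ M n, n ≤ M → GTC Φ (pw X M) → GTC Φ (pw X n) := by
    intro M n hle
    induction M, hle using Nat.le_induction with
    | base => exact fun h => h
    | succ M _ ih =>
      intro h
      have h1 := gtc_iff.1 h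
      exact ih (gtc_iff.2 (GC.of_dom (Y' := X.prod (pw X M)) (dom_snd'' hpt') h1))
  rcases Nat.le_total n (factors Q - 1) with h1 | h1
  · rw [min_eq_left h1]
  · rw [min_eq_right h1]
    exact ⟨hdown _ _ h1, fun h => gtc_pw hW hK hb h n⟩

lemma hasPt_pw (hX : HasPt Φ X) : ∀ n, HasPt Φ (pw X n)
  | 0 => hX
  | n + 1 => hX.prod (hasPt_pw hX n)

end Pool.Agent.U625.KP
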