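import Pool.Agent.U625.KP.Defs
import Pool.Agent.U625.KP.Comb
import Pool.Agent.U625.GP.Main

/-!
# Slopes of the monomials on powers of ordinary varieties of K3 type
-/

set_option linter.unusedVariables false
set_option linter.unusedSectionVars false

open CategoryTheory AlgebraicGeometry CategoryTheory.Limits

universe u v

namespace Pool.Agent.U625.KP

open Pool.Agent.H914 Pool.Agent.H447 Pool.Agent.W534 Pool.Agent.Y163 VarClass Obj WeilCohomology
  Module Polynomial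
open Pool.Agent.R940
open Pool.Agent.N204.GT
open Pool.Agent.U625.GP

variable {k : Type u} [Field k] {𝒱 : VarClass k} {ops : CycleOps 𝒱}
  {W : WeilCohomology.{u, v} ops} {X Y Y' Z U S : 𝒱.Obj} {p : ℕ}
  [hp : Fact p.Prime] {Φ : FrobSystem W p} {σ : W.K →+* ℂ}
  {ι : Type v} [Fintype ι] [DecidableEq ι] {B : HBasis W X ι} {lam : ι → W.K} {h m : ℕ} {Q : ℚ[X]}

lemma p_gt : (1 : ℝ) < p := by exact_mod_cast hp.out.one_lt

lemma pow_inj {e a b : ℕ} (he : 0 < e) (hab : ((p : ℝ) ^ (e * a))⁻¹ = ((p : ℝ) ^ (e * b))⁻¹) :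
    a = b := by
  have h1 := pow_right_injective₀ (zero_lt_one.trans (p_gt (p := p))) (p_gt (p := p)).ne'
    (inv_injective hab)
  exact Nat.eq_of_mul_eq_mul_left he h1

lemma norm_pp (n : ℕ) : ‖((p : PadicAlgCl p) ^ n)‖ = ((p : ℝ) ^ n)⁻¹ := by
  rw [norm_pow, norm_p, inv_pow]

/-- The slopes. -/
theorem exists_slopes [IsAlgClosed W.K] (hB : IsEig Φ B lam) (hRH : RiemannHyp Φ σ X)
    (hint : HasIntegralPolys Φ σ X) (hK : IsOrdinaryOfK3Type Φ σ X h m Q) :
    ∃ (f : (EF lam →ₐ[ℚ] PadicAlgCl p) → ι → ℕ) (T : ι → Prop) (y₀ : PadicAlgCl p),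
      (∀ ψ l, ‖ψ (el lam l)‖ = ((p : ℝ) ^ (Φ.e X * f ψ l))⁻¹) ∧
      (∀ l, ¬ T l → ∃ t, ∀ ψ, f ψ l = t) ∧
      (∀ l l', T l → T l' → lam l * lam l' = (p : W.K) ^ (Φ.e X * (2 * h)) →
        ∀ ψ, f ψ l + f ψ l' = 2 * h) ∧
      (∀ ψ l, T l → h ≤ f ψ l + m) ∧
      (∀ ψ l, T l → ¬ (ψ (el lam l) = y₀) → h ≤ f ψ l) ∧
      (∀ l, T l → ∃ ψ, (∀ l', T l' → el lam l' = el lam l → f ψ l' + m = h) ∧
        (∀ l', T l' → ¬ (lam l * lam l' = (p : W.K) ^ (Φ.e X * (2 * h))) → f ψ l' ≤ h)) ∧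
      (∀ l, T l → aeval (lam l) Q = 0 ∧ aeval ((p : W.K) ^ (Φ.e X * (2 * h)) / lam l) Q = 0) ∧
      (∀ l, B.deg l = 2 * h → aeval (lam l) Q = 0 → T l) := by
  classical
  have hF := weilFamily hB hRH hint (slopeDenominator hRH hint)
  have he := Φ.e_pos X
  have hpos : (0 : ℝ) < p := zero_lt_one.trans (p_gt (p := p))
  obtain ⟨y₀, hy₀, hn₀, hall⟩ := hK.slopes
  have hroot : ∀ l, (frobPoly Φ σ X 1 (B.deg l)).IsRoot (σ (lam l)) := by
    intro l
    rw [frobPoly_eq, IsRoot.def, Polynomial.eval_map, Polynomial.eval₂_at_apply]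
    have h1 := root_charpoly hB l
    rw [IsRoot.def] at h1
    rw [h1, map_zero]
  let T : ι → Prop := fun l => B.deg l = 2 * h ∧ aeval (lam l) Q = 0
  have hσQ : ∀ z : W.K, aeval (σ z) Q = 0 ↔ aeval z Q = 0 := by
    intro z
    let _ : Algebra W.K ℂ := σ.toAlgebra
    have h1 : aeval (σ z) Q = σ (aeval z Q) := by
      rw [aeval_def, aeval_def, Polynomial.hom_eval₂]
      congr 1
      exact RingHom.ext_rat _ _
    rw [h1, map_eq_zero]
  have hcase : ∀ l, ¬ T l → IsTateNumber (p ^ Φ.e X) (B.deg l) (σ (lam l)) := by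
    intro l hl
    rcases hK.eigenvalues _ _ (hroot l) with h1 | ⟨h1, h2⟩
    · exact h1
    · exact absurd ⟨h1, (hσQ _).1 h2⟩ hl
  have hEQ : ∀ (z : EF lam), aeval z Q = 0 ↔ aeval (z : W.K) Q = 0 := by
    intro z
    have h1 : aeval (z : W.K) Q = algebraMap (EF lam) W.K (aeval z Q) :=
      aeval_algebraMap_apply W.K z Q
    rw [h1]
    exact ⟨fun h => by rw [h, map_zero],
      fun h => (map_eq_zero_iff _ (algebraMap (EF lam) W.K).injective).1 h⟩
  have hψQ : ∀ (ψ : EF lam →ₐ[ℚ] PadicAlgCl p) l, T l → aeval (ψ (el lam l)) Q = 0 := by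
    intro ψ l hl
    rw [aeval_algHom_apply, (hEQ (el lam l)).2 hl.2, map_zero]
  have hval : ∀ ψ : EF lam →ₐ[ℚ] PadicAlgCl p, ∀ l, ∃ t : ℕ,
      ‖ψ (el lam l)‖ = ((p : ℝ) ^ (Φ.e X * t))⁻¹ ∧
      (¬ T l → 2 * t = B.deg l) ∧
      (T l → (ψ (el lam l) = y₀ ∧ t + m = h) ∨
        (ψ (el lam l) ≠ y₀ ∧ ψ (el lam l) * y₀ = (p : PadicAlgCl p) ^ (Φ.e X * (2 * h)) ∧
          t = h + m) ∨ (ψ (el lam l) ≠ y₀ ∧ t = h)) := by
    intro ψ l
    by_cases hT : T l
    · by_cases h0 : ψ (el lam l) = y₀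
      · refine ⟨h - m, by rw [h0, hn₀], fun h => absurd hT h, fun _ => Or.inl ⟨h0, ?_⟩⟩
        have := hK.le
        omega
      · rcases hall _ (hψQ ψ l hT) with h1 | h1 | h1
        · exact absurd h1 h0
        · refine ⟨h + m, ?_, fun h => absurd hT h, fun _ => Or.inr (Or.inl ⟨h0, h1, rfl⟩)⟩
          have h2 := congrArg norm h1
          rw [norm_mul, norm_pp, hn₀] at h2
          have h3 : ((p : ℝ) ^ (Φ.e X * (2 * h)))⁻¹ =
              ((p : ℝ) ^ (Φ.e X * (h + m)))⁻¹ * ((p : ℝ) ^ (Φ.e X * (h - m)))⁻¹ := by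
            rw [← mul_inv, ← pow_add, ← Nat.mul_add]
            congr 3
            have := hK.le
            omega
          rw [h3] at h2
          exact mul_right_cancel₀ (inv_ne_zero (pow_ne_zero _ hpos.ne')) h2
        · exact ⟨h, h1, fun h => absurd hT h, fun _ => Or.inr (Or.inr ⟨h0, rfl⟩)⟩
    · obtain ⟨⟨t, ht⟩, N, hN, h1⟩ := hcase l hT
      refine ⟨t, ?_, fun _ => by omega, fun h => absurd h hT⟩
      have h2 : lam l ^ (2 * N) = ((p : W.K) ^ Φ.e X) ^ (B.deg l * N) := by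
        apply σ.injective
        rw [map_pow, h1, map_pow, map_pow, map_natCast, Nat.cast_pow]
      have h3 : (el lam l) ^ (2 * N) = ((p : EF lam) ^ Φ.e X) ^ (B.deg l * N) := by
        apply (algebraMap (EF lam) W.K).injective
        rw [map_pow, map_pow, map_pow, map_natCast]
        exact h2
      have h4 := congrArg (fun z => ‖ψ z‖) h3
      simp only [map_pow, map_natCast, norm_pow, norm_p] at h4
      have h5 : ‖ψ (el lam l)‖ ^ (2 * N) = (((p : ℝ) ^ (Φ.e X * t))⁻¹) ^ (2 * N) := by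
        rw [h4, ht, ← inv_pow, ← pow_mul, ← pow_mul]
        congr 1
        ring
      exact (pow_left_inj₀ (norm_nonneg _) (by positivity) (by omega)).1 h5
  choose f hf1 hf2 hf3 using hval
  have hx0 : ∀ l, lam l ≠ 0 := fun l => gen_ne_zero (hB l) (B.b.ne_zero l)
  refine ⟨f, T, y₀, hf1, ?_, ?_, ?_, ?_, ?_, ?_, fun l h1 h2 => ⟨h1, h2⟩⟩
  · intro l hl
    refine ⟨B.deg l / 2, fun ψ => ?_⟩
    have := hf2 ψ l hl
    omega
  · intro l l' hl hl' hc ψ
    have h1 : el lam l * el lam l' = (p : EF lam) ^ (Φ.e X * (2 * h)) := by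
      apply (algebraMap (EF lam) W.K).injective
      rw [map_mul, map_pow, map_natCast]
      exact hc
    have h2 := congrArg (fun z => ‖ψ z‖) h1
    simp only [map_mul, map_pow, map_natCast, norm_mul, norm_pow, norm_p, hf1] at h2
    rw [← mul_inv, ← pow_add, ← Nat.mul_add, inv_pow] at h2
    exact pow_inj he h2
  · intro ψ l hl
    rcases hf3 ψ l hl with ⟨_, h1⟩ | ⟨_, _, h1⟩ | ⟨_, h1⟩ <;> omega
  · intro ψ l hl hne
    rcases hf3 ψ l hl with ⟨h0, h1⟩ | ⟨_, _, h1⟩ | ⟨_, h1⟩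
    · exact absurd h0 hne
    · omega
    · omega
  · intro l hl
    have h1 : aeval y₀ (minpoly ℚ (el lam l)) = 0 := by
      have h2 : aeval (el lam l) Q = 0 := (hEQ _).2 hl.2
      obtain ⟨c, hc⟩ := minpoly.dvd ℚ _ h2
      have h3 : IsUnit c := by
        rcases hK.irreducible.isUnit_or_isUnit hc with h4 | h4
        · exact absurd h4 (minpoly.not_isUnit ℚ _)
        · exact h4
      rw [hc, map_mul] at hy₀
      obtain ⟨d, hd⟩ := h3
      rcases mul_eq_zero.1 hy₀ with h4 | h4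
      · exact h4
      · exfalso
        have h5 : aeval y₀ ((d : ℚ[X]) * ((d⁻¹ : ℚ[X]ˣ) : ℚ[X])) = 0 := by
          rw [map_mul, hd, h4, zero_mul]
        rw [Units.mul_inv, map_one] at h5
        exact one_ne_zero h5
    obtain ⟨ψ, hψ⟩ := exists_emb hF (el lam l) h1
    refine ⟨ψ, fun l' hl' he' => ?_, fun l' hl' hc => ?_⟩
    · rcases hf3 ψ l' hl' with ⟨_, h1⟩ | ⟨h0, _, _⟩ | ⟨h0, _⟩
      · exact h1
      · exact absurd (by rw [he', hψ]) h0
      · exact absurd (by rw [he', hψ]) h0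
    · rcases hf3 ψ l' hl' with ⟨_, h1⟩ | ⟨h0, h2, _⟩ | ⟨_, h1⟩
      · omega
      · exfalso
        apply hc
        rw [← hψ, ← map_mul] at h2
        have h3 : ψ (el lam l' * el lam l) = ψ ((p : EF lam) ^ (Φ.e X * (2 * h))) := by
          rw [h2, map_pow, map_natCast]
        have h4 := congrArg (algebraMap (EF lam) W.K) (ψ.toRingHom.injective h3)
        rw [map_mul, map_pow, map_natCast] at h4
        rw [mul_comm]
        exact h4
      · exact h1.le
  · intro l hl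
    refine ⟨hl.2, ?_⟩
    rw [← hσQ, map_div₀, map_pow, map_natCast]
    have h1 := hRH 1 one_pos _ _ (hroot l)
    have h2 : (p : ℂ) ^ (Φ.e X * (2 * h)) / σ (lam l) = (starRingEnd ℂ) (σ (lam l)) := by
      rw [div_eq_iff ((map_ne_zero σ).2 (hx0 l)), mul_comm ((starRingEnd ℂ) _), Complex.mul_conj,
        Complex.normSq_eq_norm_sq, h1, hl.1, card, mul_one]
      push_cast
      rw [← pow_mul]
    rw [h2]
    have h3 : aeval ((starRingEnd ℂ) (σ (lam l))) Q = (starRingEnd ℂ) (aeval (σ (lam l)) Q) := by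
      rw [aeval_def, aeval_def, Polynomial.hom_eval₂]
      congr 1
      exact RingHom.ext_rat _ _
    rw [h3, (hσQ _).2 hl.2, map_zero]

end Pool.Agent.U625.KP
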